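import Pool.Agent.Work.MP_9d4f6b_lc.E.Lin

/-!
MODULE BWD (M). A solution in the triangle gives a BR. PROOF. Given IsPr z with Φ(px z, py z) = 0. Let x, y be the
coordinates. Weights T0 = 1, T1 = (q + y)/q, T2 = q (F1 - y^2) / ((q - x) F1), all > 0 (|y| <= H < q, y^2 <= H^2 =
16 R^4 < F1 since F1 >= q^3/2), t = T / ∑ T; the same with V0 = 1, V1 = (q + y - x)/q, V2 = (q+1)(F2 - (y^2 - x(x-(q+1))))/((q+1-x) F2) > 0.
EqT, EqV hold, so all payoffs of players 1 and 2 are equal (eqV_iff, eqT_iff), b1, b2 are equalities;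
B_eq: B * positive = t0 v0 … * 0 = 0, so B = 0 and all payoffs of player 3 are 0.
-/

set_option linter.unusedVariables false
set_option linter.style.longLine false

namespace Pool.Agent.Work.MP_9d4f6b_lc.E

private theorem bwd_norm (T : Fin 3 → ℚ) (hT : ∀ i, 0 < T i) :
    0 < ∑ i, T i ∧ H.IsPr (fun i => T i / ∑ i, T i) := by
  have hs : 0 < ∑ i, T i := Finset.sum_pos (fun i _ => hT i) ⟨0, Finset.mem_univ _⟩
  refine ⟨hs, fun i => (div_pos (hT i) hs).le, ?_⟩
  rw [← Finset.sum_div, div_self hs.ne']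

theorem bwd {a b : ℤ} {z : Fin 3 → ℚ} (hz : H.IsPr z)
    (h : (py a b z) ^ 2 = (px a b z) ^ 3 + a * px a b z + b) : ∃ t v, BR a b t v z := by
  obtain ⟨hx0, hx1, hy⟩ := box a b z hz
  have hV := @eqV_iff a b
  have hT := @eqT_iff a b
  have hVz := fun v => @hV v z hz
  have hTz := fun t => @hT t z hz
  clear hV hT
  generalize px a b z = x at *
  generalize py a b z = y at *
  have hqb := q_big a b
  have hF1 := F1_big a b
  have hF2 := F2_big a b
  have hqb' : (4096:ℚ) ≤ q a b := by exact_mod_cast hqb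
  have hF1' : (q a b : ℚ)^3 ≤ 2 * F1 a b := by exact_mod_cast hF1
  have hF2' : ((q a b : ℚ)+1)^3 ≤ 2 * F2 a b := by exact_mod_cast hF2
  have hR : (8:ℚ) ≤ R a b := by
    have : 8 ≤ R a b := by unfold R; omega
    exact_mod_cast this
  have hHq : (q a b : ℚ) = 16 * H a b := by unfold q H; push_cast; ring
  have hRq : 512 * (R a b : ℚ) ≤ q a b := by unfold q; push_cast; nlinarith
  clear hqb hF1 hF2
  have hB := fun v t => @B_eq a b t v x y
  generalize hq : (q a b : ℚ) = Q at *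
  generalize hR' : (R a b : ℚ) = r at *
  generalize hH' : (H a b : ℚ) = η at *
  generalize hf1 : (F1 a b : ℚ) = f1 at *
  generalize hf2 : (F2 a b : ℚ) = f2 at *
  obtain ⟨hy0, hy1⟩ := abs_le.1 hy
  have hQ0 : 0 < Q := by linarith
  have hQ3 : 4096 * Q ^ 2 ≤ Q ^ 3 := by
    have : 0 ≤ Q ^ 2 * (Q - 4096) := mul_nonneg (sq_nonneg _) (by linarith)
    nlinarith
  have hQ3' : 4096 * Q ^ 2 ≤ (Q + 1) ^ 3 := by nlinarith
  have hf1p : 0 < f1 := by nlinarith [sq_nonneg Q, mul_pos hQ0 hQ0]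
  have hf2p : 0 < f2 := by nlinarith [sq_nonneg Q, mul_pos hQ0 hQ0]
  have hQx : 0 < Q - x := by linarith
  have hQx' : 0 < Q + 1 - x := by linarith
  have hy2 : y ^ 2 ≤ Q ^ 2 := by
    apply sq_le_sq'
    · linarith
    · linarith
  have hfy : 0 < f1 - y ^ 2 := by nlinarith [mul_pos hQ0 hQ0]
  have hxx : -(2 * Q ^ 2) ≤ x * (x - (Q + 1)) := by
    rcases le_total 0 x with h0 | h0
    · have h1 : 0 ≤ x ^ 2 := sq_nonneg _
      have h2 : x ≤ Q := by linarith
      have h3 : x * (Q + 1) ≤ Q * (2 * Q) := mul_le_mul h2 (by linarith) (by linarith) hQ0.le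
      nlinarith
    · have h1 : 0 ≤ x * (x - (Q + 1)) := mul_nonneg_of_nonpos_of_nonpos h0 (by linarith)
      nlinarith [mul_pos hQ0 hQ0]
  have hfy' : 0 < f2 - (y ^ 2 - x * (x - (Q + 1))) := by nlinarith [mul_pos hQ0 hQ0]
  -- the weights
  set T : Fin 3 → ℚ := ![1, (Q + y) / Q, Q * (f1 - y ^ 2) / ((Q - x) * f1)] with hTd
  set V : Fin 3 → ℚ := ![1, (Q + (y - x)) / Q,
    (Q + 1) * (f2 - (y ^ 2 - x * (x - (Q + 1)))) / ((Q + 1 - x) * f2)] with hVd
  have hTp : ∀ i, 0 < T i := by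
    intro i
    fin_cases i
    · simp [hTd]
    · simp only [hTd]
      exact div_pos (by linarith) hQ0
    · simp only [hTd]
      exact div_pos (mul_pos hQ0 hfy) (mul_pos hQx hf1p)
  have hVp : ∀ i, 0 < V i := by
    intro i
    fin_cases i
    · simp [hVd]
    · simp only [hVd]
      exact div_pos (by linarith) hQ0
    · simp only [hVd]
      exact div_pos (mul_pos (by linarith) hfy') (mul_pos hQx' hf2p)
  obtain ⟨hTs, hTpr⟩ := bwd_norm T hTp
  obtain ⟨hVs, hVpr⟩ := bwd_norm V hVp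
  generalize hts : ∑ i, T i = ts at *
  generalize hvs : ∑ i, V i = vs at *
  have hET : EqT a b (fun i => T i / ts) x y := by
    unfold EqT
    rw [hq, hf1]
    constructor
    · simp only [hTd, Matrix.cons_val_one, Matrix.cons_val_zero]
      field_simp
    · simp only [hTd, Matrix.cons_val_zero, Matrix.cons_val]
      field_simp
  have hEV : EqV a b (fun i => V i / vs) x y := by
    unfold EqV
    rw [hq, hf2]
    constructor
    · simp only [hVd, Matrix.cons_val_one, Matrix.cons_val_zero]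
      field_simp
    · simp only [hVd, Matrix.cons_val_zero, Matrix.cons_val]
      field_simp
  have hB0 : ∑ i : Fin 3, ∑ j : Fin 3, (T i / ts) * (V j / vs) * (BB a b i j : ℚ) = 0 := by
    have h1 := hB (fun i => V i / vs) (fun i => T i / ts) hEV hET
    have h2 : x ^ 3 + a * x + b - y ^ 2 = 0 := by rw [h]; ring
    rw [h2, mul_zero] at h1
    rcases mul_eq_zero.1 h1 with h3 | h3
    · exact h3
    · exact absurd h3 (mul_pos hQx hQx').ne'
  obtain ⟨e1, e2⟩ := (hVz _).1 hEV
  obtain ⟨e3, e4⟩ := (hTz _).1 hET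
  refine ⟨fun i => T i / ts, fun i => V i / vs, hTpr, hVpr, hz, ?_, ?_, ?_⟩
  · intro i _ i'
    apply le_of_eq
    have key : ∀ i : Fin 3, ∑ j : Fin 3, ∑ k : Fin 3, (V j / vs) * z k * (AA a b i j k : ℚ) =
        ∑ j : Fin 3, ∑ k : Fin 3, (V j / vs) * z k * (AA a b 0 j k : ℚ) := by
      intro i
      fin_cases i
      · rfl
      · exact e1
      · exact e2
    exact (key i').trans (key i).symm
  · intro j _ j'
    apply le_of_eq
    have key : ∀ j : Fin 3, ∑ i : Fin 3, ∑ k : Fin 3, (T i / ts) * z k * (CC a b i j k : ℚ) =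
        ∑ i : Fin 3, ∑ k : Fin 3, (T i / ts) * z k * (CC a b i 0 k : ℚ) := by
      intro j
      fin_cases j
      · rfl
      · exact e3
      · exact e4
    exact (key j').trans (key j).symm
  · intro k _ k'
    apply le_of_eq
    have key : ∀ k : Fin 3, ∑ i : Fin 3, ∑ j : Fin 3, (T i / ts) * (V j / vs) * (ZZ a b i j k : ℚ) = 0 := by
      intro k
      unfold ZZ
      by_cases hk : (k : ℕ) = 1
      · simp only [hk, if_true, Int.cast_neg, mul_neg, Finset.sum_neg_distrib]
        rw [hB0, neg_zero]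
      · simp [hk]
    exact (key k').trans (key k).symm

end Pool.Agent.Work.MP_9d4f6b_lc.E
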