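import Pool.Agent.Work.MP_9d4f6b_lc.E.Defs

/-!
MODULE CODEE (S-M). The coded game. entry: for p < 3, i < l, j < m, k < n and s = ((p l + i) m + j) n + k: s < 3 l m n, s % n = k,
s / n % m = j, s / (m n) % l = i, s / (l m n) = p (same proof as entry in H/Code.lean); then HasNE (gameE l m n (a, b)) is by
definition the existence of an equilibrium for payE 0, payE 1, payE 2 = n1, n2, n3.
-/

set_option linter.unusedVariables false
set_option linter.style.longLine false

namespace Pool.Agent.Work.MP_9d4f6b_lc.E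

private theorem dm {n k : ℕ} (x : ℕ) (hk : k < n) : (x * n + k) / n = x ∧ (x * n + k) % n = k := by
  have hn : 0 < n := by omega
  constructor
  · rw [mul_comm, Nat.mul_add_div hn, Nat.div_eq_of_lt hk, add_zero]
  · rw [mul_comm, Nat.mul_add_mod, Nat.mod_eq_of_lt hk]

private theorem lt_step {x N n k : ℕ} (hx : x < N) (hk : k < n) : x * n + k < N * n := by
  calc x * n + k < x * n + n := by omega
    _ = (x + 1) * n := by ring
    _ ≤ N * n := Nat.mul_le_mul_right n hx

private theorem entryE (a b : ℤ) {l m n p i j k : ℕ} (hp : p < 3) (hi : i < l) (hj : j < m)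
    (hk : k < n) : (gameE l m n (a, b)).2.2.2.getD (((p * l + i) * m + j) * n + k) 0 =
      payE a b p i j k := by
  have h1 := dm ((p * l + i) * m + j) hk
  have h2 := dm (p * l + i) hj
  have h3 := dm p hi
  have hs : ((p * l + i) * m + j) * n + k < 3 * l * m * n :=
    lt_step (lt_step (lt_step hp hi) hj) hk
  have e1 : (((p * l + i) * m + j) * n + k) / (m * n) = p * l + i := by
    rw [mul_comm m n, ← Nat.div_div_eq_div_mul, h1.1, h2.1]
  have e2 : (((p * l + i) * m + j) * n + k) / (l * m * n) = p := by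
    rw [show l * m * n = (m * n) * l by ring, ← Nat.div_div_eq_div_mul, e1, h3.1]
  change (((List.range (3 * l * m * n)).map fun s =>
    payE a b (s / (l * m * n)) (s / (m * n) % l) (s / n % m) (s % n)).getD
      (((p * l + i) * m + j) * n + k) 0) = _
  rw [List.getD_eq_getElem?_getD, List.getElem?_map, List.getElem?_range hs, Option.map_some,
    Option.getD_some, e1, e2, h3.2, h1.1, h2.2, h1.2]

theorem codeE (a b : ℤ) (l m n : ℕ) : H.HasNE (gameE l m n (a, b)) ↔
    ∃ (X : Fin l → ℚ) (Y : Fin m → ℚ) (Z : Fin n → ℚ),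
      IsNE (fun (i : Fin l) (j : Fin m) (k : Fin n) => n1 a b i j k)
        (fun i j k => n2 a b i j k) (fun i j k => n3 a b i j k) X Y Z := by
  have e0 : ∀ (i : Fin l) (j : Fin m) (k : Fin n),
      (gameE l m n (a, b)).2.2.2.getD (((0 * l + i.val) * m + j.val) * n + k.val) 0 =
        n1 a b i j k := fun i j k => entryE a b (by norm_num) i.2 j.2 k.2
  have e1 : ∀ (i : Fin l) (j : Fin m) (k : Fin n),
      (gameE l m n (a, b)).2.2.2.getD (((1 * l + i.val) * m + j.val) * n + k.val) 0 =
        n2 a b i j k := fun i j k => entryE a b (by norm_num) i.2 j.2 k.2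
  have e2 : ∀ (i : Fin l) (j : Fin m) (k : Fin n),
      (gameE l m n (a, b)).2.2.2.getD (((2 * l + i.val) * m + j.val) * n + k.val) 0 =
        n3 a b i j k := fun i j k => entryE a b (by norm_num) i.2 j.2 k.2
  have e0' : ∀ (i : Fin (gameE l m n (a, b)).1) (j : Fin (gameE l m n (a, b)).2.1)
      (k : Fin (gameE l m n (a, b)).2.2.1),
      (gameE l m n (a, b)).2.2.2.getD (((0 * (gameE l m n (a, b)).1 + i.val) *
        (gameE l m n (a, b)).2.1 + j.val) * (gameE l m n (a, b)).2.2.1 + k.val) 0 =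
        n1 a b i j k := e0
  have e1' : ∀ (i : Fin (gameE l m n (a, b)).1) (j : Fin (gameE l m n (a, b)).2.1)
      (k : Fin (gameE l m n (a, b)).2.2.1),
      (gameE l m n (a, b)).2.2.2.getD (((1 * (gameE l m n (a, b)).1 + i.val) *
        (gameE l m n (a, b)).2.1 + j.val) * (gameE l m n (a, b)).2.2.1 + k.val) 0 =
        n2 a b i j k := e1
  have e2' : ∀ (i : Fin (gameE l m n (a, b)).1) (j : Fin (gameE l m n (a, b)).2.1)
      (k : Fin (gameE l m n (a, b)).2.2.1),
      (gameE l m n (a, b)).2.2.2.getD (((2 * (gameE l m n (a, b)).1 + i.val) *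
        (gameE l m n (a, b)).2.1 + j.val) * (gameE l m n (a, b)).2.2.1 + k.val) 0 =
        n3 a b i j k := e2
  unfold H.HasNE
  simp only [e0', e1', e2']
  constructor
  · rintro ⟨X, Y, Z, h1, h2, h3, h4, h5, h6, h7, h8, h9⟩
    exact ⟨X, Y, Z, ⟨h1, h2, h3, h4, h5, h6, h7, h8, h9⟩⟩
  · rintro ⟨X, Y, Z, h⟩
    exact ⟨X, Y, Z, h.x0, h.x1, h.y0, h.y1, h.z0, h.z1, h.n1, h.n2, h.n3⟩

end Pool.Agent.Work.MP_9d4f6b_lc.E
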