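import Pool.Agent.Work.MP_9d4f6b_lc.E.Pos
import Pool.Agent.Work.MP_9d4f6b_lc.H.Supp

/-!
MODULE EXTA (M). From the natural game of format l x m x n (all >= 3) to the 3 x 3 x 3 game. PROOF. Let (X, Y, Z) be an
equilibrium of n1, n2, n3. If X i ≠ 0 with i >= 3: the payoff of i is 0, of strategy 0 it is >= ∑ Y Z * 1 = 1 > 0 (pos1, cut < 3),
contradiction to H.opt1. So X, Y, Z are carried by the first three strategies; t i = X (castLE i) etc. are probability
vectors and ∑ b ∑ c Y b Z c n1 a b c = ∑ j ∑ k v j z k (AA a j k + S1) = ∑ ∑ v z AA + S1. The best response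
conditions of H.opt1, opt2, opt3 give b1, b2, b3. (The sum over Fin m of a function which vanishes for
indices >= 3 is the sum over Fin 3 of the composition with Fin.castLE: a general private lemma.)
-/

set_option linter.unusedVariables false
set_option linter.style.longLine false

namespace Pool.Agent.Work.MP_9d4f6b_lc.E

private theorem cut_lt (i : ℕ) : cut i < 3 := by
  unfold cut
  split_ifs with h
  · exact h
  · norm_num

private theorem cut_of_lt {i : ℕ} (h : i < 3) : cut i = i := if_pos h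

private theorem sum_cut {n : ℕ} (hn : 3 ≤ n) (F : Fin n → ℚ) (h : ∀ i : Fin n, ¬ i.val < 3 → F i = 0) :
    ∑ i, F i = ∑ i : Fin 3, F (Fin.castLE hn i) := by
  symm
  refine Fintype.sum_of_injective (Fin.castLE hn) (Fin.castLE_injective hn) _ _ (fun i hi => ?_)
    (fun i => rfl)
  refine h i fun h3 => hi ⟨⟨i.val, h3⟩, ?_⟩
  rfl

private theorem not_best {α β : Type} [Fintype α] [Fintype β] {Y : α → ℚ} {Z : β → ℚ}
    (hY : H.IsPr Y) (hZ : H.IsPr Z) (F G : α → β → ℚ) (hF : ∀ j k, 1 ≤ F j k)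
    (hG : ∀ j k, G j k = 0) (h : ∑ j, ∑ k, Y j * Z k * F j k ≤ ∑ j, ∑ k, Y j * Z k * G j k) :
    False := by
  have h1 : ∑ j, ∑ k, Y j * Z k * G j k = 0 :=
    Finset.sum_eq_zero fun j _ => Finset.sum_eq_zero fun k _ => by rw [hG, mul_zero]
  have h2 : (1 : ℚ) ≤ ∑ j, ∑ k, Y j * Z k * F j k := by
    calc (1 : ℚ) = ∑ j, ∑ k, Y j * Z k * 1 := by
          simp only [mul_one]
          rw [← Finset.sum_mul_sum, hY.2, hZ.2, mul_one]
      _ ≤ ∑ j, ∑ k, Y j * Z k * F j k :=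
          Finset.sum_le_sum fun j _ => Finset.sum_le_sum fun k _ =>
            mul_le_mul_of_nonneg_left (hF j k) (mul_nonneg (hY.1 j) (hZ.1 k))
  linarith

private theorem two_sum {m n : ℕ} (hm : 3 ≤ m) (hn : 3 ≤ n) {Y : Fin m → ℚ} {Z : Fin n → ℚ}
    (hY : ∀ j, Y j ≠ 0 → j.val < 3) (hZ : ∀ k, Z k ≠ 0 → k.val < 3)
    (hY1 : ∑ j : Fin 3, Y (Fin.castLE hm j) = 1) (hZ1 : ∑ k : Fin 3, Z (Fin.castLE hn k) = 1)
    (F : ℕ → ℕ → ℕ) (D : ℕ → ℕ → ℤ) (S : ℤ)
    (hF : ∀ j k, j < 3 → k < 3 → (F j k : ℤ) = D j k + S) :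
    ∑ j : Fin m, ∑ k : Fin n, Y j * Z k * (F j k : ℚ) =
      (∑ j : Fin 3, ∑ k : Fin 3, Y (Fin.castLE hm j) * Z (Fin.castLE hn k) * (D j k : ℚ)) + S := by
  have h1 : ∑ j : Fin m, ∑ k : Fin n, Y j * Z k * (F j k : ℚ) =
      ∑ j : Fin 3, ∑ k : Fin 3, Y (Fin.castLE hm j) * Z (Fin.castLE hn k) *
        ((D j k : ℚ) + (S : ℚ)) := by
    rw [sum_cut hm]
    · refine Finset.sum_congr rfl fun j _ => ?_
      rw [sum_cut hn]
      · refine Finset.sum_congr rfl fun k _ => ?_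
        congr 1
        have h2 := hF j k j.2 k.2
        have h3 : ((F j k : ℤ) : ℚ) = ((D j k + S : ℤ) : ℚ) := by rw [h2]
        push_cast at h3
        exact h3
      · intro k hk
        have : Z k = 0 := by
          by_contra h0
          exact hk (hZ k h0)
        rw [this, mul_zero, zero_mul]
    · intro j hj
      have : Y j = 0 := by
        by_contra h0
        exact hj (hY j h0)
      simp only [this, zero_mul, Finset.sum_const_zero]
  rw [h1]
  simp only [mul_add, Finset.sum_add_distrib]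
  congr 1
  rw [← Finset.sum_congr rfl fun j _ => Finset.sum_mul _ _ _]
  rw [← Finset.sum_mul, ← Finset.sum_mul_sum, hY1, hZ1, one_mul, one_mul]

section

variable (a b : ℤ)

private theorem n1_eq {i j k : ℕ} (hi : i < 3) (hj : j < 3) (hk : k < 3) :
    (n1 a b i j k : ℤ) = AA a b i j k + S1 a b := by
  rw [n1, if_pos hi, cut_of_lt hj, cut_of_lt hk]
  exact Int.toNat_of_nonneg (le_trans zero_le_one (pos1 a b i j k hi hj hk))

private theorem n2_eq {i j k : ℕ} (hi : i < 3) (hj : j < 3) (hk : k < 3) :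
    (n2 a b i j k : ℤ) = CC a b i j k + S2 a b := by
  rw [n2, if_pos hj, cut_of_lt hi, cut_of_lt hk]
  exact Int.toNat_of_nonneg (le_trans zero_le_one (pos2 a b i j k hi hj hk))

private theorem n3_eq {i j k : ℕ} (hi : i < 3) (hj : j < 3) (hk : k < 3) :
    (n3 a b i j k : ℤ) = ZZ a b i j k + S3 a b := by
  rw [n3, if_pos hk, cut_of_lt hi, cut_of_lt hj]
  exact Int.toNat_of_nonneg (le_trans zero_le_one (pos3 a b i j k hi hj hk))

private theorem n1_low {i : ℕ} (j k : ℕ) (hi : i < 3) : (1 : ℚ) ≤ (n1 a b i j k : ℚ) := by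
  rw [n1, if_pos hi]
  have h := pos1 a b i _ _ hi (cut_lt j) (cut_lt k)
  have h2 : 1 ≤ (AA a b i (cut j) (cut k) + S1 a b).toNat := by omega
  exact_mod_cast h2

private theorem n2_low (i : ℕ) {j : ℕ} (k : ℕ) (hj : j < 3) : (1 : ℚ) ≤ (n2 a b i j k : ℚ) := by
  rw [n2, if_pos hj]
  have h := pos2 a b _ j _ (cut_lt i) hj (cut_lt k)
  have h2 : 1 ≤ (CC a b (cut i) j (cut k) + S2 a b).toNat := by omega
  exact_mod_cast h2

private theorem n3_low (i j : ℕ) {k : ℕ} (hk : k < 3) : (1 : ℚ) ≤ (n3 a b i j k : ℚ) := by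
  rw [n3, if_pos hk]
  have h := pos3 a b _ _ k (cut_lt i) (cut_lt j) hk
  have h2 : 1 ≤ (ZZ a b (cut i) (cut j) k + S3 a b).toNat := by omega
  exact_mod_cast h2

end

theorem extA {a b : ℤ} {l m n : ℕ} (hl : 3 ≤ l) (hm : 3 ≤ m) (hn : 3 ≤ n) {X : Fin l → ℚ} {Y : Fin m → ℚ}
    {Z : Fin n → ℚ} (h : IsNE (fun (i : Fin l) (j : Fin m) (k : Fin n) => n1 a b i j k)
      (fun i j k => n2 a b i j k) (fun i j k => n3 a b i j k) X Y Z) : ∃ t v z, BR a b t v z := by
  have hX : H.IsPr X := ⟨h.x0, h.x1⟩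
  have hY : H.IsPr Y := ⟨h.y0, h.y1⟩
  have hZ : H.IsPr Z := ⟨h.z0, h.z1⟩
  have sX : ∀ i, X i ≠ 0 → i.val < 3 := by
    intro i hi
    by_contra h3
    refine not_best hY hZ _ _ ?_ ?_ (H.opt1 h i hi ⟨0, by omega⟩)
    · intro j k
      exact n1_low a b _ _ (by norm_num)
    · intro j k
      rw [n1, if_neg h3, Nat.cast_zero]
  have sY : ∀ j, Y j ≠ 0 → j.val < 3 := by
    intro j hj
    by_contra h3
    refine not_best hX hZ _ _ ?_ ?_ (H.opt2 h j hj ⟨0, by omega⟩)
    · intro i k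
      exact n2_low a b _ _ (by norm_num)
    · intro i k
      rw [n2, if_neg h3, Nat.cast_zero]
  have sZ : ∀ k, Z k ≠ 0 → k.val < 3 := by
    intro k hk
    by_contra h3
    refine not_best hX hY _ _ ?_ ?_ (H.opt3 h k hk ⟨0, by omega⟩)
    · intro i j
      exact n3_low a b _ _ (by norm_num)
    · intro i j
      rw [n3, if_neg h3, Nat.cast_zero]
  have one : ∀ {N : ℕ} (hN : 3 ≤ N) {W : Fin N → ℚ}, (∀ i, W i ≠ 0 → i.val < 3) → ∑ i, W i = 1 →
      ∑ i : Fin 3, W (Fin.castLE hN i) = 1 := by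
    intro N hN W hW h1
    rw [← sum_cut hN, h1]
    intro i hi
    by_contra h0
    exact hi (hW i h0)
  have oX := one hl sX h.x1
  have oY := one hm sY h.y1
  have oZ := one hn sZ h.z1
  refine ⟨fun i => X (Fin.castLE hl i), fun j => Y (Fin.castLE hm j), fun k => Z (Fin.castLE hn k),
    ⟨fun i => h.x0 _, oX⟩, ⟨fun j => h.y0 _, oY⟩, ⟨fun k => h.z0 _, oZ⟩, ?_, ?_, ?_⟩
  · intro i hi i'
    have h1 := H.opt1 h (Fin.castLE hl i) hi (Fin.castLE hl i')
    have e1 := two_sum hm hn sY sZ oY oZ (fun j k => n1 a b i j k) (fun j k => AA a b i j k)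
      (S1 a b) (fun j k hj hk => n1_eq a b i.2 hj hk)
    have e2 := two_sum hm hn sY sZ oY oZ (fun j k => n1 a b i' j k) (fun j k => AA a b i' j k)
      (S1 a b) (fun j k hj hk => n1_eq a b i'.2 hj hk)
    have h2 : ∑ j : Fin m, ∑ k : Fin n, Y j * Z k * (n1 a b i' j k : ℚ) ≤
      ∑ j : Fin m, ∑ k : Fin n, Y j * Z k * (n1 a b i j k : ℚ) := h1
    rw [e1, e2] at h2
    exact le_of_add_le_add_right h2
  · intro j hj j'
    have h1 := H.opt2 h (Fin.castLE hm j) hj (Fin.castLE hm j')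
    have e1 := two_sum hl hn sX sZ oX oZ (fun i k => n2 a b i j k) (fun i k => CC a b i j k)
      (S2 a b) (fun i k hi hk => n2_eq a b hi j.2 hk)
    have e2 := two_sum hl hn sX sZ oX oZ (fun i k => n2 a b i j' k) (fun i k => CC a b i j' k)
      (S2 a b) (fun i k hi hk => n2_eq a b hi j'.2 hk)
    have h2 : ∑ i : Fin l, ∑ k : Fin n, X i * Z k * (n2 a b i j' k : ℚ) ≤
      ∑ i : Fin l, ∑ k : Fin n, X i * Z k * (n2 a b i j k : ℚ) := h1
    rw [e1, e2] at h2
    exact le_of_add_le_add_right h2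
  · intro k hk k'
    have h1 := H.opt3 h (Fin.castLE hn k) hk (Fin.castLE hn k')
    have e1 := two_sum hl hm sX sY oX oY (fun i j => n3 a b i j k) (fun i j => ZZ a b i j k)
      (S3 a b) (fun i j hi hj => n3_eq a b hi hj k.2)
    have e2 := two_sum hl hm sX sY oX oY (fun i j => n3 a b i j k') (fun i j => ZZ a b i j k')
      (S3 a b) (fun i j hi hj => n3_eq a b hi hj k'.2)
    have h2 : ∑ i : Fin l, ∑ j : Fin m, X i * Y j * (n3 a b i j k' : ℚ) ≤
      ∑ i : Fin l, ∑ j : Fin m, X i * Y j * (n3 a b i j k : ℚ) := h1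
    rw [e1, e2] at h2
    exact le_of_add_le_add_right h2

end Pool.Agent.Work.MP_9d4f6b_lc.E
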