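import Pool.Agent.Work.MP_9d4f6b_lc.E.Pos
import Pool.Agent.Work.MP_9d4f6b_lc.H.Supp

/-!
MODULE EXTB (M). Conversely: extend t, v, z by zero. X i = t i for i < 3, else 0, etc. Use H.nash_of: a strategy with nonzero
probability is < 3; comparison with a strategy < 3: b1 (shifted by S1); comparison with a strategy >= 3: its payoff is 0,
the other one is >= 0 (natural numbers). Sums over Fin l of X reduce to Fin 3.
-/

set_option linter.unusedVariables false
set_option linter.style.longLine false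

namespace Pool.Agent.Work.MP_9d4f6b_lc.E

private theorem sum_castLE {l : ℕ} (hl : 3 ≤ l) (g : Fin l → ℚ) (hg : ∀ i : Fin l, 3 ≤ i.val → g i = 0) :
    ∑ i, g i = ∑ i : Fin 3, g (Fin.castLE hl i) := by
  obtain ⟨r, rfl⟩ := Nat.exists_eq_add_of_le hl
  rw [Fin.sum_univ_add]
  have h0 : ∑ i : Fin r, g (Fin.natAdd 3 i) = 0 :=
    Finset.sum_eq_zero fun i _ => hg _ (by simp)
  rw [h0, add_zero]
  rfl

/-- extension by zero -/
private def ex {l : ℕ} (v : Fin 3 → ℚ) (i : Fin l) : ℚ := if h : i.val < 3 then v ⟨i, h⟩ else 0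

private theorem ex_cast {l : ℕ} (hl : 3 ≤ l) (v : Fin 3 → ℚ) (i : Fin 3) : ex v (Fin.castLE hl i) = v i := by
  have h : (Fin.castLE hl i).val < 3 := i.2
  rw [ex, dif_pos h]
  rfl

private theorem ex_ge {l : ℕ} (v : Fin 3 → ℚ) (i : Fin l) (h : 3 ≤ i.val) : ex v i = 0 := by
  rw [ex, dif_neg (by omega)]

private theorem ex_pr {l : ℕ} (hl : 3 ≤ l) {v : Fin 3 → ℚ} (hv : H.IsPr v) :
    H.IsPr (ex v : Fin l → ℚ) := by
  refine ⟨fun i => ?_, ?_⟩
  · unfold ex
    split_ifs with h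
    · exact hv.1 _
    · exact le_rfl
  · rw [sum_castLE hl _ (fun i h => ex_ge v i h), ← hv.2]
    exact Finset.sum_congr rfl fun i _ => ex_cast hl v i

private theorem val2 {m n : ℕ} (hm : 3 ≤ m) (hn : 3 ≤ n) {v z : Fin 3 → ℚ} (hv : ∑ j, v j = 1)
    (hz : ∑ k, z k = 1) (f : Fin m → Fin n → ℕ) (A : Fin 3 → Fin 3 → ℤ) (S : ℤ)
    (hf : ∀ j k : Fin 3, (f (Fin.castLE hm j) (Fin.castLE hn k) : ℤ) = A j k + S) :
    ∑ b, ∑ c, ex v b * ex z c * (f b c : ℚ) = (∑ j : Fin 3, ∑ k : Fin 3, v j * z k * (A j k : ℚ)) + S := by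
  rw [sum_castLE hm _ (fun i h => Finset.sum_eq_zero fun c _ => by rw [ex_ge v i h]; ring)]
  have h1 : ∀ j : Fin 3, ∑ c, ex v (Fin.castLE hm j) * ex z c * (f (Fin.castLE hm j) c : ℚ) =
      ∑ k : Fin 3, (v j * z k * (A j k : ℚ) + v j * z k * S) := fun j => by
    rw [sum_castLE hn _ (fun i h => by rw [ex_ge z i h]; ring)]
    refine Finset.sum_congr rfl fun k _ => ?_
    have h2 : ((f (Fin.castLE hm j) (Fin.castLE hn k) : ℕ) : ℚ) = A j k + S := by
      have h3 := hf j k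
      exact_mod_cast h3
    rw [ex_cast, ex_cast, h2]
    ring
  rw [Finset.sum_congr rfl fun j _ => h1 j]
  simp only [Finset.sum_add_distrib, ← Finset.sum_mul, ← Finset.mul_sum, hz, hv, mul_one, one_mul]

private theorem val_nonneg {m n : ℕ} (hm : 3 ≤ m) (hn : 3 ≤ n) {v z : Fin 3 → ℚ} (hv : H.IsPr v)
    (hz : H.IsPr z) (f : Fin m → Fin n → ℕ) : 0 ≤ ∑ b, ∑ c, ex v b * ex z c * (f b c : ℚ) :=
  Finset.sum_nonneg fun b _ => Finset.sum_nonneg fun c _ =>
    mul_nonneg (mul_nonneg ((ex_pr hm hv).1 b) ((ex_pr hn hz).1 c)) (Nat.cast_nonneg _)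

private theorem cut_of (i : Fin 3) : cut i.val = i.val := if_pos i.2

theorem extB {a b : ℤ} {l m n : ℕ} (hl : 3 ≤ l) (hm : 3 ≤ m) (hn : 3 ≤ n) {t v z : Fin 3 → ℚ}
    (h : BR a b t v z) : ∃ (X : Fin l → ℚ) (Y : Fin m → ℚ) (Z : Fin n → ℚ),
    IsNE (fun (i : Fin l) (j : Fin m) (k : Fin n) => n1 a b i j k)
      (fun i j k => n2 a b i j k) (fun i j k => n3 a b i j k) X Y Z := by
  have e1 : ∀ i : Fin 3, ∀ j k : Fin 3, ((n1 a b i.val (Fin.castLE hm j).val (Fin.castLE hn k).val : ℕ) : ℤ) =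
      AA a b i j k + S1 a b := fun i j k => by
    have h0 := pos1 a b i j k i.2 j.2 k.2
    have h1 : n1 a b i.val (Fin.castLE hm j).val (Fin.castLE hn k).val = (AA a b i j k + S1 a b).toNat := by
      show n1 a b i.val j.val k.val = _
      rw [n1, if_pos i.2, cut_of, cut_of]
    rw [h1]
    omega
  have e2 : ∀ j : Fin 3, ∀ i k : Fin 3, ((n2 a b (Fin.castLE hl i).val j.val (Fin.castLE hn k).val : ℕ) : ℤ) =
      CC a b i j k + S2 a b := fun j i k => by
    have h0 := pos2 a b i j k i.2 j.2 k.2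
    have h1 : n2 a b (Fin.castLE hl i).val j.val (Fin.castLE hn k).val = (CC a b i j k + S2 a b).toNat := by
      show n2 a b i.val j.val k.val = _
      rw [n2, if_pos j.2, cut_of, cut_of]
    rw [h1]
    omega
  have e3 : ∀ k : Fin 3, ∀ i j : Fin 3, ((n3 a b (Fin.castLE hl i).val (Fin.castLE hm j).val k.val : ℕ) : ℤ) =
      ZZ a b i j k + S3 a b := fun k i j => by
    have h0 := pos3 a b i j k i.2 j.2 k.2
    have h1 : n3 a b (Fin.castLE hl i).val (Fin.castLE hm j).val k.val = (ZZ a b i j k + S3 a b).toNat := by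
      show n3 a b i.val j.val k.val = _
      rw [n3, if_pos k.2, cut_of, cut_of]
    rw [h1]
    omega
  refine ⟨ex t, ex v, ex z, H.nash_of (ex_pr hl h.pt) (ex_pr hm h.pv) (ex_pr hn h.pz) ?_ ?_ ?_⟩
  · intro i hi i'
    have hi3 : i.val < 3 := by
      by_contra h0
      exact hi (ex_ge t i (by omega))
    have hti : t ⟨i, hi3⟩ ≠ 0 := by
      rw [ex, dif_pos hi3] at hi
      exact hi
    by_cases h3 : i'.val < 3
    · have A := val2 hm hn h.pv.2 h.pz.2 (fun j k => n1 a b i.val j k) (fun j k => AA a b i.val j k) (S1 a b)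
        (fun j k => e1 ⟨i, hi3⟩ j k)
      have B := val2 hm hn h.pv.2 h.pz.2 (fun j k => n1 a b i'.val j k) (fun j k => AA a b i'.val j k) (S1 a b)
        (fun j k => e1 ⟨i', h3⟩ j k)
      have C := h.b1 ⟨i, hi3⟩ hti ⟨i', h3⟩
      beta_reduce at A B
      rw [A, B]
      have D : (∑ j : Fin 3, ∑ k : Fin 3, v j * z k * (AA a b i'.val j k : ℚ)) ≤
        ∑ j : Fin 3, ∑ k : Fin 3, v j * z k * (AA a b i.val j k : ℚ) := C
      linarith
    · have h0 : ∑ j : Fin m, ∑ k : Fin n, ex v j * ex z k * (n1 a b i'.val j k : ℚ) = 0 :=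
        Finset.sum_eq_zero fun j _ => Finset.sum_eq_zero fun k _ => by
          rw [n1, if_neg h3]
          simp
      rw [h0]
      exact val_nonneg hm hn h.pv h.pz _
  · intro j hj j'
    have hj3 : j.val < 3 := by
      by_contra h0
      exact hj (ex_ge v j (by omega))
    have htj : v ⟨j, hj3⟩ ≠ 0 := by
      rw [ex, dif_pos hj3] at hj
      exact hj
    by_cases h3 : j'.val < 3
    · have A := val2 hl hn h.pt.2 h.pz.2 (fun i k => n2 a b i j.val k) (fun i k => CC a b i j.val k) (S2 a b)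
        (fun i k => e2 ⟨j, hj3⟩ i k)
      have B := val2 hl hn h.pt.2 h.pz.2 (fun i k => n2 a b i j'.val k) (fun i k => CC a b i j'.val k) (S2 a b)
        (fun i k => e2 ⟨j', h3⟩ i k)
      have C := h.b2 ⟨j, hj3⟩ htj ⟨j', h3⟩
      beta_reduce at A B
      rw [A, B]
      have D : (∑ i : Fin 3, ∑ k : Fin 3, t i * z k * (CC a b i j'.val k : ℚ)) ≤
        ∑ i : Fin 3, ∑ k : Fin 3, t i * z k * (CC a b i j.val k : ℚ) := C
      linarith
    · have h0 : ∑ i : Fin l, ∑ k : Fin n, ex t i * ex z k * (n2 a b i j'.val k : ℚ) = 0 :=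
        Finset.sum_eq_zero fun i _ => Finset.sum_eq_zero fun k _ => by
          rw [n2, if_neg h3]
          simp
      rw [h0]
      exact val_nonneg hl hn h.pt h.pz _
  · intro k hk k'
    have hk3 : k.val < 3 := by
      by_contra h0
      exact hk (ex_ge z k (by omega))
    have htk : z ⟨k, hk3⟩ ≠ 0 := by
      rw [ex, dif_pos hk3] at hk
      exact hk
    by_cases h3 : k'.val < 3
    · have A := val2 hl hm h.pt.2 h.pv.2 (fun i j => n3 a b i j k.val) (fun i j => ZZ a b i j k.val) (S3 a b)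
        (fun i j => e3 ⟨k, hk3⟩ i j)
      have B := val2 hl hm h.pt.2 h.pv.2 (fun i j => n3 a b i j k'.val) (fun i j => ZZ a b i j k'.val) (S3 a b)
        (fun i j => e3 ⟨k', h3⟩ i j)
      have C := h.b3 ⟨k, hk3⟩ htk ⟨k', h3⟩
      beta_reduce at A B
      rw [A, B]
      have D : (∑ i : Fin 3, ∑ j : Fin 3, t i * v j * (ZZ a b i j k'.val : ℚ)) ≤
        ∑ i : Fin 3, ∑ j : Fin 3, t i * v j * (ZZ a b i j k.val : ℚ) := C
      linarith
    · have h0 : ∑ i : Fin l, ∑ j : Fin m, ex t i * ex v j * (n3 a b i j k'.val : ℚ) = 0 :=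
        Finset.sum_eq_zero fun i _ => Finset.sum_eq_zero fun j _ => by
          rw [n3, if_neg h3]
          simp
      rw [h0]
      exact val_nonneg hl hm h.pt h.pv _

end Pool.Agent.Work.MP_9d4f6b_lc.E
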