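import Pool.Agent.Work.MP_9d4f6b_lc.E.Dev

/-!
MODULE LIN (M). The linear equations. Let x = px z, y = py z, IsPr z (so x <= 3R < q by box, q_big/definition of q).
(1) If the three payoffs ∑ j ∑ k v j z k AA i j k (i = 0, 1, 2) are equal then (avA, dividing by the
nonzero factors): v 1 = (1 + (y - x)/q) v 0 and (1 - x/(q+1)) v 2 = v 0 (1 - (y^2 - x (x - (q+1)))/F2). In denominator free form
lin1 below; conversely these two equations give equality of the three payoffs.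
(2) The same for CC: t 1 = (1 + y/q) t 0 and (1 - x/q) t 2 = t 0 (1 - y^2/F1).
(3) With them B = ∑ i ∑ j t i v j BB i j = F1 (q+1) t2 v0 - q F2 t0 v2 + (2q+1) q (q+1) t0 v0 satisfies
B (q - x)(q + 1 - x) = t0 v0 q (q+1) (x^3 + a x + b - y^2): use F1 = q^3 + a q + b, F2 = (q+1)^3 + a (q+1) + b, the
interpolation identity f(x) - l(x) = (x-q)(x-(q+1))(x+2q+1), pure algebra (linear_combination).
-/

set_option linter.unusedVariables false
set_option linter.style.longLine false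

namespace Pool.Agent.Work.MP_9d4f6b_lc.E

section

variable {a b : ℤ} {t v z : Fin 3 → ℚ}

/-- equations for v -/
def EqV (a b : ℤ) (v : Fin 3 → ℚ) (x y : ℚ) : Prop :=
  (q a b : ℚ) * v 1 = (q a b + (y - x)) * v 0 ∧
  (q a b + 1 - x) * F2 a b * v 2 = (q a b + 1) * (F2 a b - (y ^ 2 - x * (x - (q a b + 1)))) * v 0

/-- equations for t -/
def EqT (a b : ℤ) (t : Fin 3 → ℚ) (x y : ℚ) : Prop :=
  (q a b : ℚ) * t 1 = (q a b + y) * t 0 ∧
  (q a b - x) * F1 a b * t 2 = q a b * (F1 a b - y ^ 2) * t 0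

private theorem q_pos : (0 : ℚ) < q a b := by
  have h := q_big a b
  have : (0 : ℕ) < q a b := by omega
  exact_mod_cast this

private theorem F1_pos : (0 : ℚ) < F1 a b := by
  have h := F1_big a b
  have h2 := q_big a b
  have h3 : (0 : ℤ) < (q a b : ℤ) ^ 3 := by
    have : (0 : ℤ) < q a b := by omega
    positivity
  have : (0 : ℤ) < F1 a b := by omega
  exact_mod_cast this

private theorem F2_pos : (0 : ℚ) < F2 a b := by
  have h := F2_big a b
  have h3 : (0 : ℤ) < ((q a b : ℤ) + 1) ^ 3 := by positivity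
  have : (0 : ℤ) < F2 a b := by omega
  exact_mod_cast this

private theorem sumA (hz : H.IsPr z) (i : ℕ) :
    ∑ j : Fin 3, ∑ k : Fin 3, v j * z k * (AA a b i j k : ℚ) =
      v 0 * (∑ k : Fin 3, z k * (AA a b i 0 k : ℚ)) + v 1 * (∑ k : Fin 3, z k * (AA a b i 1 k : ℚ)) +
        v 2 * (∑ k : Fin 3, z k * (AA a b i 2 k : ℚ)) := by
  simp only [Finset.mul_sum, mul_assoc]
  rw [Fin.sum_univ_three]
  rfl

private theorem sumC (hz : H.IsPr z) (j : ℕ) :
    ∑ i : Fin 3, ∑ k : Fin 3, t i * z k * (CC a b i j k : ℚ) =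
      t 0 * (∑ k : Fin 3, z k * (CC a b 0 j k : ℚ)) + t 1 * (∑ k : Fin 3, z k * (CC a b 1 j k : ℚ)) +
        t 2 * (∑ k : Fin 3, z k * (CC a b 2 j k : ℚ)) := by
  simp only [Finset.mul_sum, mul_assoc]
  rw [Fin.sum_univ_three]
  rfl

theorem eqV_iff (hz : H.IsPr z) : EqV a b v (px a b z) (py a b z) ↔
    (∑ j : Fin 3, ∑ k : Fin 3, v j * z k * (AA a b 1 j k : ℚ) =
      ∑ j : Fin 3, ∑ k : Fin 3, v j * z k * (AA a b 0 j k : ℚ)) ∧
    (∑ j : Fin 3, ∑ k : Fin 3, v j * z k * (AA a b 2 j k : ℚ) =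
      ∑ j : Fin 3, ∑ k : Fin 3, v j * z k * (AA a b 0 j k : ℚ)) := by
  rw [sumA hz, sumA hz, sumA hz]
  simp only [avA a b z hz]
  simp only [if_true, if_false, one_ne_zero, OfNat.ofNat_ne_zero, zero_ne_one, OfNat.ofNat_ne_one]
  have hq := q_pos (a := a) (b := b)
  have hF := F2_pos (a := a) (b := b)
  have hc : ((q a b : ℚ) + 1) * F2 a b ≠ 0 := by positivity
  have hq' : (q a b : ℚ) ≠ 0 := hq.ne'
  generalize px a b z = x at *
  generalize py a b z = y at *
  unfold EqV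
  constructor
  · rintro ⟨h1, h2⟩
    constructor
    · linear_combination ((q a b : ℚ) + 1) * F2 a b * h1
    · linear_combination (q a b : ℚ) * h2 + (q a b : ℚ) * (q a b + 1) * (y + x) * h1
  · rintro ⟨h1, h2⟩
    have h3 : (q a b : ℚ) * v 1 = (q a b + (y - x)) * v 0 := by
      apply mul_left_cancel₀ hc
      linear_combination h1
    refine ⟨h3, ?_⟩
    apply mul_left_cancel₀ hq'
    linear_combination h2 - (q a b : ℚ) * (q a b + 1) * (y + x) * h3

theorem eqT_iff (hz : H.IsPr z) : EqT a b t (px a b z) (py a b z) ↔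
    (∑ i : Fin 3, ∑ k : Fin 3, t i * z k * (CC a b i 1 k : ℚ) =
      ∑ i : Fin 3, ∑ k : Fin 3, t i * z k * (CC a b i 0 k : ℚ)) ∧
    (∑ i : Fin 3, ∑ k : Fin 3, t i * z k * (CC a b i 2 k : ℚ) =
      ∑ i : Fin 3, ∑ k : Fin 3, t i * z k * (CC a b i 0 k : ℚ)) := by
  rw [sumC hz, sumC hz, sumC hz]
  simp only [avC a b z hz]
  simp only [if_true, if_false, one_ne_zero, OfNat.ofNat_ne_zero, zero_ne_one, OfNat.ofNat_ne_one]
  have hq := q_pos (a := a) (b := b)
  have hF := F1_pos (a := a) (b := b)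
  have hc : (q a b : ℚ) * F1 a b ≠ 0 := by positivity
  have hq' : (q a b : ℚ) ≠ 0 := hq.ne'
  generalize px a b z = x at *
  generalize py a b z = y at *
  unfold EqT
  constructor
  · rintro ⟨h1, h2⟩
    constructor
    · linear_combination -((q a b : ℚ) * F1 a b) * h1
    · linear_combination -(q a b : ℚ) * h2 - (q a b : ℚ) ^ 2 * y * h1
  · rintro ⟨h1, h2⟩
    have h3 : (q a b : ℚ) * t 1 = (q a b + y) * t 0 := by
      apply mul_left_cancel₀ hc
      linear_combination -h1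
    refine ⟨h3, ?_⟩
    apply mul_left_cancel₀ hq'
    linear_combination -h2 - (q a b : ℚ) ^ 2 * y * h3

theorem B_eq {x y : ℚ} (hv : EqV a b v x y) (ht : EqT a b t x y) :
    (∑ i : Fin 3, ∑ j : Fin 3, t i * v j * (BB a b i j : ℚ)) * ((q a b - x) * (q a b + 1 - x)) =
      t 0 * v 0 * (q a b * (q a b + 1)) * (x ^ 3 + a * x + b - y ^ 2) := by
  have hs : (∑ i : Fin 3, ∑ j : Fin 3, t i * v j * (BB a b i j : ℚ)) =
      t 2 * v 0 * (F1 a b * (q a b + 1)) - t 0 * v 2 * (q a b * F2 a b) +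
        t 0 * v 0 * ((2 * q a b + 1) * q a b * (q a b + 1)) := by
    simp only [Fin.sum_univ_three]
    simp [BB]
    ring
  rw [hs]
  have h1 := hv.2
  have h2 := ht.2
  simp only [F1, F2] at h1 h2 ⊢
  push_cast at h1 h2 ⊢
  linear_combination ((q a b : ℚ) + 1) * (q a b + 1 - x) * v 0 * h2 - (q a b : ℚ) * (q a b - x) * t 0 * h1

end

end Pool.Agent.Work.MP_9d4f6b_lc.E
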