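import Pool.Agent.Work.MP_9d4f6b_lc.E.Mix
import Pool.Agent.Work.MP_9d4f6b_lc.E.Lin

/-!
MODULE FWD (M). A BR gives a rational solution. PROOF. By mix all t i, v j > 0, so by b1 and b2 all payoffs of
player 1 are equal and all of player 2 are equal: EqV, EqT (eqV_iff, eqT_iff). By B_eq and q - x > 0 (x <= 3R < q), the
number B = ∑ t v BB has the sign of Φ = x^3 + a x + b - y^2 (x = px z, y = py z). Payoffs of player 3: 0 for k = 0, 2 and -B
for k = 1. If z 1 = 0: some other z k ≠ 0, so -B <= 0, but Φ < 0 (side) gives B < 0: contradiction. If z 1 = 1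
(the others 0): 0 <= -B, but Φ > 0 (vert): contradiction. Else z 1 ≠ 0 and some other z k ≠ 0, so -B = 0, Φ = 0.
-/

set_option linter.unusedVariables false
set_option linter.style.longLine false

namespace Pool.Agent.Work.MP_9d4f6b_lc.E

private theorem R_pos (a b : ℤ) : (8 : ℚ) ≤ (R a b : ℚ) := by
  have h : 8 ≤ R a b := by
    unfold R
    omega
  exact_mod_cast h

private theorem q_eq (a b : ℤ) : (q a b : ℚ) = 64 * (R a b : ℚ) ^ 2 := by
  unfold q
  push_cast
  ring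

private theorem exists_ne {z : Fin 3 → ℚ} (hz : H.IsPr z) (h1 : z 1 ≠ 1) : ∃ k, k ≠ 1 ∧ z k ≠ 0 := by
  by_contra hc
  push Not at hc
  apply h1
  have e := hz.2
  rw [Fin.sum_univ_three, hc 0 (by decide), hc 2 (by decide)] at e
  linarith

theorem fwd {a b : ℤ} {t v z : Fin 3 → ℚ} (h : BR a b t v z) : Sol3 a b := by
  obtain ⟨ht, hv⟩ := mix h
  have e1 : EqV a b v (px a b z) (py a b z) := by
    rw [eqV_iff h.pz]
    have c1 := h.b1 0 (ht 0).ne' 1
    have c2 := h.b1 1 (ht 1).ne' 0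
    have c3 := h.b1 0 (ht 0).ne' 2
    have c4 := h.b1 2 (ht 2).ne' 0
    exact ⟨le_antisymm c1 c2, le_antisymm c3 c4⟩
  have e2 : EqT a b t (px a b z) (py a b z) := by
    rw [eqT_iff h.pz]
    have c1 := h.b2 0 (hv 0).ne' 1
    have c2 := h.b2 1 (hv 1).ne' 0
    have c3 := h.b2 0 (hv 0).ne' 2
    have c4 := h.b2 2 (hv 2).ne' 0
    exact ⟨le_antisymm c1 c2, le_antisymm c3 c4⟩
  have e3 := B_eq e1 e2
  obtain ⟨b1, b2, b3⟩ := box a b z h.pz
  have hR := R_pos a b
  have hq := q_eq a b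
  have hx : px a b z < q a b := by
    rw [hq]
    nlinarith
  have hq0 : (0 : ℚ) < q a b := by
    rw [hq]
    positivity
  have hD : 0 < ((q a b : ℚ) - px a b z) * (q a b + 1 - px a b z) := by
    apply mul_pos <;> linarith
  have hE : 0 < t 0 * v 0 * ((q a b : ℚ) * (q a b + 1)) :=
    mul_pos (mul_pos (ht 0) (hv 0)) (mul_pos hq0 (by linarith))
  set B : ℚ := ∑ i : Fin 3, ∑ j : Fin 3, t i * v j * (BB a b i j : ℚ) with hB
  set Φ : ℚ := (px a b z) ^ 3 + a * px a b z + b - (py a b z) ^ 2 with hΦ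
  have P1 : ∑ i : Fin 3, ∑ j : Fin 3, t i * v j * (ZZ a b i j ((1 : Fin 3) : ℕ) : ℚ) = - B := by
    rw [hB, ← Finset.sum_neg_distrib]
    refine Finset.sum_congr rfl fun i _ => ?_
    rw [← Finset.sum_neg_distrib]
    refine Finset.sum_congr rfl fun j _ => ?_
    unfold ZZ
    rw [if_pos (by rfl)]
    push_cast
    ring
  have P0 : ∀ k : Fin 3, k ≠ 1 → ∑ i : Fin 3, ∑ j : Fin 3, t i * v j * (ZZ a b i j k : ℚ) = 0 := by
    intro k hk
    refine Finset.sum_eq_zero fun i _ => Finset.sum_eq_zero fun j _ => ?_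
    unfold ZZ
    rw [if_neg (by
      intro hc
      exact hk (Fin.ext hc))]
    push_cast
    ring
  by_cases h0 : z 1 = 0
  · exfalso
    obtain ⟨k, hk, hk'⟩ := exists_ne h.pz (by rw [h0]; norm_num)
    have c := h.b3 k hk' 1
    rw [P1, P0 k hk] at c
    have s := side a b z h.pz h0
    have c2 : t 0 * v 0 * ((q a b : ℚ) * (q a b + 1)) * Φ < 0 := mul_neg_of_pos_of_neg hE s
    have c3 : 0 ≤ B * (((q a b : ℚ) - px a b z) * (q a b + 1 - px a b z)) :=
      mul_nonneg (by linarith) hD.le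
    linarith
  by_cases h1 : z 1 = 1
  · exfalso
    have c := h.b3 1 h0 0
    rw [P1, P0 0 (by decide)] at c
    have s := vert a b z h.pz h1
    have c2 : 0 < t 0 * v 0 * ((q a b : ℚ) * (q a b + 1)) * Φ := mul_pos hE s
    have c3 : B * (((q a b : ℚ) - px a b z) * (q a b + 1 - px a b z)) ≤ 0 :=
      mul_nonpos_of_nonpos_of_nonneg (by linarith) hD.le
    linarith
  obtain ⟨k, hk, hk'⟩ := exists_ne h.pz h1
  have c1 := h.b3 k hk' 1
  have c2 := h.b3 1 h0 k
  rw [P1, P0 k hk] at c1 c2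
  have hB0 : B = 0 := by linarith
  rw [hB0, zero_mul] at e3
  have hΦ0 : Φ = 0 := by
    rcases mul_eq_zero.1 e3.symm with h5 | h5
    · exact absurd h5 hE.ne'
    · exact h5
  exact ⟨px a b z, py a b z, by rw [hΦ] at hΦ0; linarith⟩

end Pool.Agent.Work.MP_9d4f6b_lc.E
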