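import Pool.Agent.Work.MP_9d4f6b_lc.E.PrimE1

/-!
MODULE PRIME2 (S-M). The game: n1, n2, n3, cut, payE by Primrec.ite (nat_lt, eq), then Primrec.list_map over the constant
list List.range (3 l m n) with nat_div, nat_mod by constants.
-/

set_option linter.unusedVariables false
set_option linter.style.longLine false

namespace Pool.Agent.Work.MP_9d4f6b_lc.E

section

variable {α : Type} [Primcodable α] {A B : α → ℤ} {P I J L : α → ℕ}

private theorem lt3 (hI : Primrec I) : PrimrecPred (fun x => I x < 3) :=
  Primrec.nat_lt.comp hI (Primrec.const 3)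

private theorem prim_cut (hI : Primrec I) : Primrec (fun x => cut (I x)) := by
  unfold cut
  exact Primrec.ite (lt3 hI) hI (Primrec.const 0)

private theorem prim_n1 (hA : Primrec A) (hB : Primrec B) (hI : Primrec I) (hJ : Primrec J)
    (hL : Primrec L) : Primrec (fun x => n1 (A x) (B x) (I x) (J x) (L x)) := by
  unfold n1
  exact Primrec.ite (lt3 hI) (prim_toNat' (prim_add
    (prim_AA hA hB hI (prim_cut hJ) (prim_cut hL)) (prim_S1 hA hB))) (Primrec.const 0)

private theorem prim_n2 (hA : Primrec A) (hB : Primrec B) (hI : Primrec I) (hJ : Primrec J)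
    (hL : Primrec L) : Primrec (fun x => n2 (A x) (B x) (I x) (J x) (L x)) := by
  unfold n2
  exact Primrec.ite (lt3 hJ) (prim_toNat' (prim_add
    (prim_CC hA hB (prim_cut hI) hJ (prim_cut hL)) (prim_S2 hA hB))) (Primrec.const 0)

private theorem prim_n3 (hA : Primrec A) (hB : Primrec B) (hI : Primrec I) (hJ : Primrec J)
    (hL : Primrec L) : Primrec (fun x => n3 (A x) (B x) (I x) (J x) (L x)) := by
  unfold n3
  exact Primrec.ite (lt3 hL) (prim_toNat' (prim_add
    (prim_ZZ hA hB (prim_cut hI) (prim_cut hJ) hL) (prim_S3 hA hB))) (Primrec.const 0)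

private theorem prim_payE (hA : Primrec A) (hB : Primrec B) (hP : Primrec P) (hI : Primrec I)
    (hJ : Primrec J) (hL : Primrec L) :
    Primrec (fun x => payE (A x) (B x) (P x) (I x) (J x) (L x)) := by
  unfold payE
  exact Primrec.ite (Primrec.eq.comp hP (Primrec.const 0)) (prim_n1 hA hB hI hJ hL)
    (Primrec.ite (Primrec.eq.comp hP (Primrec.const 1)) (prim_n2 hA hB hI hJ hL)
      (prim_n3 hA hB hI hJ hL))

end

theorem prim_gameE (l m n : ℕ) : Primrec (gameE l m n) := by
  unfold gameE
  refine (Primrec.const l).pair ((Primrec.const m).pair ((Primrec.const n).pair ?_))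
  refine Primrec.list_map (Primrec.const (List.range (3 * l * m * n))) ?_
  have hs : Primrec (fun x : (ℤ × ℤ) × ℕ => x.2) := Primrec.snd
  exact prim_payE (Primrec.fst.comp Primrec.fst) (Primrec.snd.comp Primrec.fst)
    (Primrec.nat_div.comp hs (Primrec.const (l * m * n)))
    (Primrec.nat_mod.comp (Primrec.nat_div.comp hs (Primrec.const (m * n))) (Primrec.const l))
    (Primrec.nat_mod.comp (Primrec.nat_div.comp hs (Primrec.const n)) (Primrec.const m))
    (Primrec.nat_mod.comp hs (Primrec.const n))

end Pool.Agent.Work.MP_9d4f6b_lc.E
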