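import Pool.Agent.Work.MP_9d4f6b_lc.E.Defs

/-!
MODULE TRI (M). Geometry of the triangle. px z = -R + 4 R z_1 and py z = H (z_2 - z_0) for IsPr z.
(box) for IsPr z: -R <= px z <= 3 R and |py z| <= H. (side) if z 1 = 0 then px z = -R and f(-R) < 0:
f(-R) = -R^3 - a R + b <= -R^3 + (|a|+|b|) R < 0. (vert) z 1 = 1: px = 3 R, py = 0, f(3R) > 0.
(pt) a solution with x <= R has -R < x (for x <= -R: f(x) <= x^3 + (|a| + |b|)|x| < 0 <= y^2 impossible) and y^2 = f(x) <=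
2 R^3 <= (2 R^2)^2, so |y| <= 2 R^2 = H/2; z_1 = (x + R)/(4R) in [0, 1/2], z_2 - z_0 = y / H in [-1/2, 1/2],
z_0 + z_2 = 1 - z_1 >= 1/2: so z_0, z_2 >= 0.
-/

set_option linter.unusedVariables false
set_option linter.style.longLine false

namespace Pool.Agent.Work.MP_9d4f6b_lc.E

section

variable (a b : ℤ) (z : Fin 3 → ℚ)

/-- `R` is a positive number larger than `8 (1 + |a| + |b|)` -/
private theorem R_eq : (R a b : ℚ) = 8 * (1 + |(a : ℚ)| + |(b : ℚ)|) := by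
  have h1 : ((a.natAbs : ℕ) : ℚ) = |(a : ℚ)| := by
    rw [Nat.cast_natAbs, Int.cast_abs]
  have h2 : ((b.natAbs : ℕ) : ℚ) = |(b : ℚ)| := by
    rw [Nat.cast_natAbs, Int.cast_abs]
  unfold R
  push_cast [Nat.cast_natAbs, Int.cast_abs]
  ring

private theorem H_eq : (H a b : ℚ) = 4 * (R a b : ℚ) ^ 2 := by
  unfold H
  push_cast
  ring

private theorem R_ge : (8 : ℚ) ≤ R a b := by
  rw [R_eq]
  have h1 := abs_nonneg (a : ℚ)
  have h2 := abs_nonneg (b : ℚ)
  linarith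

private theorem a_le : |(a : ℚ)| ≤ (R a b : ℚ) / 8 - 1 := by
  rw [R_eq]
  have h2 := abs_nonneg (b : ℚ)
  linarith

private theorem ab_le : |(a : ℚ)| + |(b : ℚ)| = (R a b : ℚ) / 8 - 1 := by
  rw [R_eq]
  ring

private theorem cube_gt {r : ℚ} (hr : 8 ≤ r) : (r / 8 - 1) * r < r ^ 3 := by
  have h1 : (r / 8 - 1) * r ≤ r * r := mul_le_mul_of_nonneg_right (by linarith) (by linarith)
  have h2 : 0 < r * r := by positivity
  have h3 : r * r * 1 < r * r * r := mul_lt_mul_of_pos_left (by linarith) h2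
  have h4 : r ^ 3 = r * r * r := by ring
  rw [h4]
  linarith

theorem px_eq (hz : H.IsPr z) : px a b z = - (R a b : ℚ) + 4 * R a b * z 1 := by
  have h := hz.2
  rw [Fin.sum_univ_three] at h
  unfold px
  rw [Fin.sum_univ_three]
  simp only [vx, Fin.val_zero, Fin.val_one, Fin.val_two]
  norm_num
  linear_combination (-(R a b : ℚ)) * h

theorem py_eq : py a b z = (H a b : ℚ) * (z 2 - z 0) := by
  unfold py
  rw [Fin.sum_univ_three]
  simp only [vy, Fin.val_zero, Fin.val_one, Fin.val_two]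
  norm_num
  ring

private theorem z_bd (hz : H.IsPr z) : 0 ≤ z 0 ∧ 0 ≤ z 1 ∧ 0 ≤ z 2 ∧ z 0 + z 1 + z 2 = 1 := by
  have h := hz.2
  rw [Fin.sum_univ_three] at h
  exact ⟨hz.1 0, hz.1 1, hz.1 2, h⟩

theorem box (hz : H.IsPr z) : - (R a b : ℚ) ≤ px a b z ∧ px a b z ≤ 3 * R a b ∧ |py a b z| ≤ H a b := by
  obtain ⟨h0, h1, h2, h3⟩ := z_bd z hz
  have hR := R_ge a b
  rw [px_eq a b z hz, py_eq]
  refine ⟨?_, ?_, ?_⟩
  · have : 0 ≤ 4 * (R a b : ℚ) * z 1 := by positivity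
    linarith
  · have : z 1 ≤ 1 := by linarith
    nlinarith
  · have hH : (0 : ℚ) ≤ H a b := Nat.cast_nonneg _
    rw [abs_mul, abs_of_nonneg hH]
    have : |z 2 - z 0| ≤ 1 := by
      rw [abs_le]
      constructor <;> linarith
    calc (H a b : ℚ) * |z 2 - z 0| ≤ (H a b : ℚ) * 1 := mul_le_mul_of_nonneg_left this hH
      _ = H a b := mul_one _

theorem side (hz : H.IsPr z) (h : z 1 = 0) : (px a b z) ^ 3 + a * px a b z + b - (py a b z) ^ 2 < 0 := by
  rw [px_eq a b z hz, h, mul_zero, add_zero]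
  have hR := R_ge a b
  have hs := ab_le a b
  have ha : -(a : ℚ) ≤ |(a : ℚ)| := neg_le_abs _
  have hb : (b : ℚ) ≤ |(b : ℚ)| := le_abs_self _
  have ha0 := abs_nonneg (a : ℚ)
  have hb0 := abs_nonneg (b : ℚ)
  have hy := sq_nonneg (py a b z)
  set r : ℚ := (R a b : ℚ) with hr
  have e1 : (-r) ^ 3 + (a : ℚ) * -r + b = -(r ^ 3) + (-(a : ℚ)) * r + b := by ring
  have e2 : (-(a : ℚ)) * r ≤ |(a : ℚ)| * r := mul_le_mul_of_nonneg_right ha (by linarith)
  have e3 : (b : ℚ) ≤ |(b : ℚ)| * r := by nlinarith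
  have e4 : |(a : ℚ)| * r + |(b : ℚ)| * r = (r / 8 - 1) * r := by rw [← hs]; ring
  have e5 : (r / 8 - 1) * r < r ^ 3 := cube_gt hR
  linarith

theorem vert (hz : H.IsPr z) (h : z 1 = 1) : 0 < (px a b z) ^ 3 + a * px a b z + b - (py a b z) ^ 2 := by
  obtain ⟨h0, h1, h2, h3⟩ := z_bd z hz
  have e0 : z 0 = 0 := by linarith
  have e2 : z 2 = 0 := by linarith
  rw [px_eq a b z hz, py_eq, e0, e2, h, sub_zero, mul_zero]
  have hR := R_ge a b
  have hs := ab_le a b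
  have ha : -|(a : ℚ)| ≤ (a : ℚ) := neg_abs_le _
  have hb : -|(b : ℚ)| ≤ (b : ℚ) := neg_abs_le _
  have ha0 := abs_nonneg (a : ℚ)
  have hb0 := abs_nonneg (b : ℚ)
  set r : ℚ := (R a b : ℚ) with hr
  have e1 : (-r + 4 * r * 1) ^ 3 + (a : ℚ) * (-r + 4 * r * 1) + b - (0 : ℚ) ^ 2 =
      27 * r ^ 3 + 3 * ((a : ℚ) * r) + b := by ring
  rw [e1]
  have e3 : -(|(a : ℚ)| * r) ≤ (a : ℚ) * r := by nlinarith
  have e4 : |(b : ℚ)| ≤ |(b : ℚ)| * r := by nlinarith
  have e5 : |(a : ℚ)| * r + |(b : ℚ)| * r = (r / 8 - 1) * r := by rw [← hs]; ring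
  have e6 : (r / 8 - 1) * r < r ^ 3 := cube_gt hR
  have e7 : 0 ≤ |(b : ℚ)| * r := by positivity
  have e8 : 0 < r ^ 3 := by positivity
  linarith

theorem exists_z {x y : ℚ} (h : y ^ 2 = x ^ 3 + a * x + b) (hx : x ≤ R a b) :
    ∃ z : Fin 3 → ℚ, H.IsPr z ∧ px a b z = x ∧ py a b z = y := by
  have hR := R_ge a b
  have hs := ab_le a b
  have hHe := H_eq a b
  have ha0 := abs_nonneg (a : ℚ)
  have hb0 := abs_nonneg (b : ℚ)
  have ha : (a : ℚ) ≤ |(a : ℚ)| := le_abs_self _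
  have ha' : -|(a : ℚ)| ≤ (a : ℚ) := neg_abs_le _
  have hb : (b : ℚ) ≤ |(b : ℚ)| := le_abs_self _
  have hRH : (R a b : ℚ) ≠ 0 := by linarith
  have hH : (0 : ℚ) < H a b := by rw [hHe]; positivity
  set r : ℚ := (R a b : ℚ) with hr
  -- `-r < x`
  have hx1 : -r < x := by
    by_contra hn
    rw [not_lt] at hn
    set u : ℚ := -x with hu
    have hu1 : r ≤ u := by linarith
    have e1 : y ^ 2 = -(u ^ 3) - a * u + b := by
      rw [h, hu]
      ring
    have e2 : -(a : ℚ) * u ≤ |(a : ℚ)| * u := mul_le_mul_of_nonneg_right (by linarith) (by linarith)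
    have e3 : |(b : ℚ)| ≤ |(b : ℚ)| * u := by nlinarith
    have e4 : |(a : ℚ)| * u + |(b : ℚ)| * u = (r / 8 - 1) * u := by rw [← hs]; ring
    have e5 : (r / 8 - 1) * u ≤ (u / 8 - 1) * u := mul_le_mul_of_nonneg_right (by linarith) (by linarith)
    have e6 : (u / 8 - 1) * u < u ^ 3 := cube_gt (by linarith)
    have e7 := sq_nonneg y
    nlinarith
  -- `|x| ≤ r`
  have hxa : |x| ≤ r := abs_le.2 ⟨hx1.le, hx⟩
  have hy2 : y ^ 2 ≤ 2 * r ^ 3 := by
    have e1 : x ^ 3 ≤ r ^ 3 := by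
      have : x ^ 3 ≤ |x| ^ 3 := by
        rw [← abs_pow]
        exact le_abs_self _
      exact this.trans (pow_le_pow_left₀ (abs_nonneg x) hxa 3)
    have e2 : (a : ℚ) * x ≤ |(a : ℚ)| * r := by
      calc (a : ℚ) * x ≤ |(a : ℚ) * x| := le_abs_self _
        _ = |(a : ℚ)| * |x| := abs_mul _ _
        _ ≤ |(a : ℚ)| * r := mul_le_mul_of_nonneg_left hxa ha0
    have e3 : |(b : ℚ)| ≤ |(b : ℚ)| * r := by nlinarith
    have e4 : |(a : ℚ)| * r + |(b : ℚ)| * r = (r / 8 - 1) * r := by rw [← hs]; ring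
    have e5 : (r / 8 - 1) * r < r ^ 3 := cube_gt hR
    rw [h]
    linarith
  have hyb : |y| ≤ 2 * r ^ 2 := by
    apply abs_le_of_sq_le_sq _ (by positivity)
    have e1 : (2 * r ^ 2) ^ 2 = 2 * r ^ 3 * (2 * r) := by ring
    rw [e1]
    have e2 : (0 : ℚ) < 2 * r ^ 3 := by positivity
    nlinarith
  have hyH : |y / (H a b : ℚ)| ≤ 1 / 2 := by
    rw [abs_div, abs_of_pos hH, div_le_iff₀ hH, hHe]
    linarith
  obtain ⟨hy1, hy3⟩ := abs_le.1 hyH
  -- the coordinates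
  set c : ℚ := (x + r) / (4 * r) with hc
  have hc0 : 0 ≤ c := by
    rw [hc]
    apply div_nonneg <;> linarith
  have hc1 : c ≤ 1 / 2 := by
    rw [hc, div_le_iff₀ (by linarith)]
    linarith
  set w : ℚ := y / (H a b : ℚ) with hw
  refine ⟨![(1 - c - w) / 2, c, (1 - c + w) / 2], ?_, ?_, ?_⟩
  · refine ⟨fun i => ?_, ?_⟩
    · fin_cases i
      · show 0 ≤ (1 - c - w) / 2
        linarith
      · exact hc0
      · show 0 ≤ (1 - c + w) / 2
        linarith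
    · rw [Fin.sum_univ_three]
      show (1 - c - w) / 2 + c + (1 - c + w) / 2 = 1
      ring
  · rw [px_eq]
    · show -r + 4 * r * c = x
      rw [hc]
      field_simp
      ring
    · refine ⟨fun i => ?_, ?_⟩
      · fin_cases i
        · show 0 ≤ (1 - c - w) / 2
          linarith
        · exact hc0
        · show 0 ≤ (1 - c + w) / 2
          linarith
      · rw [Fin.sum_univ_three]
        show (1 - c - w) / 2 + c + (1 - c + w) / 2 = 1
        ring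
  · rw [py_eq]
    show (H a b : ℚ) * ((1 - c + w) / 2 - (1 - c - w) / 2) = y
    have e1 : (1 - c + w) / 2 - (1 - c - w) / 2 = w := by ring
    rw [e1, hw, mul_div_cancel₀ _ hH.ne']

end

end Pool.Agent.Work.MP_9d4f6b_lc.E
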