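import Pool.Agent.Work.MP_9d4f6b_lc.E.Desc
import Pool.Agent.Work.MP_9d4f6b_lc.E.Tri
import Pool.Agent.Work.MP_9d4f6b_lc.E.Fwd
import Pool.Agent.Work.MP_9d4f6b_lc.E.Bwd
import Pool.Agent.Work.MP_9d4f6b_lc.E.ExtA
import Pool.Agent.Work.MP_9d4f6b_lc.E.ExtB
import Pool.Agent.Work.MP_9d4f6b_lc.E.CodeE
import Pool.Agent.Work.MP_9d4f6b_lc.E.PrimE2

/-!
Assembly (proved here).
-/

set_option linter.unusedVariables false
set_option linter.style.longLine false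

namespace Pool.Agent.Work.MP_9d4f6b_lc.E

theorem sol_iff (a b : ℤ) (l m n : ℕ) (hl : 3 ≤ l) (hm : 3 ≤ m) (hn : 3 ≤ n) :
    Sol3 a b ↔ H.HasNE (gameE l m n (a, b)) := by
  rw [codeE]
  constructor
  · intro h
    obtain ⟨x, y, h1, h2⟩ := desc a b h
    obtain ⟨z, hz, h3, h4⟩ := exists_z a b h1 h2
    obtain ⟨t, v, h5⟩ := bwd hz (a := a) (b := b) (by rw [h3, h4]; exact h1)
    exact extB hl hm hn h5
  · rintro ⟨X, Y, Z, h⟩
    obtain ⟨t, v, z, h1⟩ := extA hl hm hn h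
    exact fwd h1

end Pool.Agent.Work.MP_9d4f6b_lc.E
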