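import Pool.Agent.Work.MP_9d4f6b_lc.Def
import Pool.Agent.Work.MP_9d4f6b_lc.H.Defs

/-!
MP_9d4f6b_lc, third block: 3 x 3 x 3 games contain the question whether y^2 = x^3 + a x + b has a rational
solution. Definitions (FIXED FILE, nothing to prove).

IDEA. z (player 3) in the simplex = point (x, y) of the triangle with the vertices V0 = (-R, -H),
V1 = (3R, 0), V2 = (-R, H). For fixed z the players 1 and 2 play a perturbed matching game (payoff matrices
A_z = L1 (identity + error <= 1/8), C_z = L2 (- identity + error <= 1/8)), whose only equilibrium t(z), v(z)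
is fully mixed and given by quadratic forms (determinantal syzygies). Player 3 has equal payoffs 0 for V0, V2
and payoff -B(t,v) for V1, where B(t(z), v(z)) = positive * (x^3 + a x + b - y^2). On the side x = -R this is
negative, at the vertex V1 positive: so the equilibria are exactly the points of the curve in the
triangle. With q = x1, x2 = q + 1, F1 = f(q), F2 = f(q+1), f(x) = x^3 + a x + b:
t_0 : t_1 : t_2 = (1 - x/q) : (1 - x/q)(1 + y/q) : (1 - y^2/F1),
v_0 : v_1 : v_2 = (1 - x/(q+1)) : (1 - x/(q+1))(1 + (y-x)/q) : (1 - (y^2 - x (x-(q+1)))/F2),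
B(t,v) = t_0 v_0 q (q+1) (f(x) - y^2) / ((q - x)(q + 1 - x)). (All formulas were tested numerically.)
-/

set_option linter.unusedVariables false
set_option linter.style.longLine false

namespace Pool.Agent.Work.MP_9d4f6b_lc.E

section

variable (a b : ℤ)

def R : ℕ := 8 * (1 + a.natAbs + b.natAbs)

def H : ℕ := 4 * R a b ^ 2

def q : ℕ := 64 * R a b ^ 2

def F1 : ℤ := (q a b : ℤ) ^ 3 + a * q a b + b

def F2 : ℤ := ((q a b : ℤ) + 1) ^ 3 + a * (q a b + 1) + b

/-- coordinates of the vertices -/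
def vx (k : ℕ) : ℤ := if k = 1 then 3 * R a b else - R a b

def vy (k : ℕ) : ℤ := if k = 0 then - H a b else if k = 1 then 0 else H a b

/-- payoff of player 1 (scaled by L1 = q (q+1) F2) -/
def AA (i j k : ℕ) : ℤ :=
  if i = 0 then (if j = 0 then q a b * (q a b + 1) * F2 a b else 0)
  else if i = 1 then
    (if j = 0 then (vx a b k - vy a b k) * (q a b + 1) * F2 a b
      else if j = 1 then q a b * (q a b + 1) * F2 a b else 0)
  else
    (if j = 0 then q a b * (q a b + 1) * ((q a b + 1) * vx a b k - q a b * (vy a b k + vx a b k))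
      else if j = 1 then q a b * (q a b + 1) * q a b * (vy a b k + vx a b k)
      else q a b * F2 a b * ((q a b + 1) - vx a b k))

/-- payoff of player 2 (scaled by L2 = q q F1) -/
def CC (i j k : ℕ) : ℤ :=
  if j = 0 then (if i = 0 then -(q a b * q a b * F1 a b) else 0)
  else if j = 1 then
    (if i = 0 then vy a b k * q a b * F1 a b else if i = 1 then -(q a b * q a b * F1 a b) else 0)
  else
    (if i = 0 then q a b * q a b * q a b * vy a b k
      else if i = 1 then -(q a b * q a b * q a b * vy a b k)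
      else -(q a b * F1 a b * (q a b - vx a b k)))

/-- the bilinear form of player 3 -/
def BB (i j : ℕ) : ℤ :=
  if i = 2 ∧ j = 0 then F1 a b * (q a b + 1)
  else if i = 0 ∧ j = 2 then -(q a b * F2 a b)
  else if i = 0 ∧ j = 0 then (2 * q a b + 1) * q a b * (q a b + 1)
  else 0

/-- payoff of player 3 -/
def ZZ (i j k : ℕ) : ℤ := if k = 1 then - BB a b i j else 0

/-- mutual best responses in the 3 x 3 x 3 game -/
structure BR (t v z : Fin 3 → ℚ) : Prop where
  pt : H.IsPr t
  pv : H.IsPr v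
  pz : H.IsPr z
  b1 : ∀ i, t i ≠ 0 → ∀ i' : Fin 3, ∑ j : Fin 3, ∑ k : Fin 3, v j * z k * (AA a b i' j k : ℚ) ≤
    ∑ j : Fin 3, ∑ k : Fin 3, v j * z k * (AA a b i j k : ℚ)
  b2 : ∀ j, v j ≠ 0 → ∀ j' : Fin 3, ∑ i : Fin 3, ∑ k : Fin 3, t i * z k * (CC a b i j' k : ℚ) ≤
    ∑ i : Fin 3, ∑ k : Fin 3, t i * z k * (CC a b i j k : ℚ)
  b3 : ∀ k, z k ≠ 0 → ∀ k' : Fin 3, ∑ i : Fin 3, ∑ j : Fin 3, t i * v j * (ZZ a b i j k' : ℚ) ≤
    ∑ i : Fin 3, ∑ j : Fin 3, t i * v j * (ZZ a b i j k : ℚ)

/-- coordinates of the point z -/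
def px (z : Fin 3 → ℚ) : ℚ := ∑ k : Fin 3, z k * (vx a b k : ℚ)

def py (z : Fin 3 → ℚ) : ℚ := ∑ k : Fin 3, z k * (vy a b k : ℚ)

/-! ### The game with natural payoffs in the format l x m x n -/

def cut (i : ℕ) : ℕ := if i < 3 then i else 0

def S1 : ℤ := 2 * (q a b * (q a b + 1) * F2 a b)

def S2 : ℤ := 2 * (q a b * q a b * F1 a b)

def S3 : ℤ := F1 a b * (q a b + 1) + q a b * F2 a b + (2 * q a b + 1) * q a b * (q a b + 1) + 1

def n1 (i j k : ℕ) : ℕ := if i < 3 then (AA a b i (cut j) (cut k) + S1 a b).toNat else 0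

def n2 (i j k : ℕ) : ℕ := if j < 3 then (CC a b (cut i) j (cut k) + S2 a b).toNat else 0

def n3 (i j k : ℕ) : ℕ := if k < 3 then (ZZ a b (cut i) (cut j) k + S3 a b).toNat else 0

def payE (p i j k : ℕ) : ℕ :=
  if p = 0 then n1 a b i j k else if p = 1 then n2 a b i j k else n3 a b i j k

end

/-- the coded game -/
def gameE (l m n : ℕ) (p : ℤ × ℤ) : ℕ × ℕ × ℕ × List ℕ :=
  (l, m, n, (List.range (3 * l * m * n)).map fun s =>
    payE p.1 p.2 (s / (l * m * n)) (s / (m * n) % l) (s / n % m) (s % n))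

/-- rational solution of y^2 = x^3 + a x + b -/
def Sol3 (a b : ℤ) : Prop := ∃ x y : ℚ, y ^ 2 = x ^ 3 + a * x + b

end Pool.Agent.Work.MP_9d4f6b_lc.E
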