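import Pool.Agent.Work.MP_9d4f6b_lc.E.Defs

/-!
MODULE DESC (M). If the cubic has a rational solution then it has one with x <= R. PROOF. Let f(x) = x^3 + a x + b
and (x, y) a solution. Claim by induction on n: if x <= 2^n R then there is a solution with x <= R. n = 0 clear.
Step: if x <= R done. If x > R = 8 (1 + |a| + |b|): f(x) > 0 (x^3 >= x^2 R/... : |a x + b| <= (|a|+|b|) x <= x^2/8 * … <=
x^3 / 64, say), so y ≠ 0; tangent: m = (3 x^2 + a)/(2 y), x' = m^2 - 2 x, y' = m (x - x') - y is a solution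
(field_simp, ring with y^2 = f(x)) and x' = (x^4 - 2 a x^2 - 8 b x + a^2) / (4 f(x)). Since x > 8 (1+|a|+|b|) the
numerator is <= (3/2) x^4 and f(x) >= (63/64) x^3 > (3/4) x^3, so x' <= x/2 <= 2^(n-1) R. Induct.
-/

set_option linter.unusedVariables false
set_option linter.style.longLine false

namespace Pool.Agent.Work.MP_9d4f6b_lc.E

private theorem desc_step {A B r x y : ℚ} (hr : r = 8 * (1 + |A| + |B|)) (hx : r < x)
    (h : y ^ 2 = x ^ 3 + A * x + B) :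
    ∃ x' y' : ℚ, y' ^ 2 = x' ^ 3 + A * x' + B ∧ x' ≤ x / 2 := by
  have hA0 := abs_nonneg A
  have hB0 := abs_nonneg B
  have hx8 : 8 < x := by linarith
  have hA : |A| < x / 8 := by linarith
  have hB : |B| < x / 8 := by linarith
  have hA1 := abs_lt.1 hA
  have hB1 := abs_lt.1 hB
  have h1 : - (x / 8) * x ≤ A * x := mul_le_mul_of_nonneg_right hA1.1.le (by linarith)
  have hx2 : 64 < x ^ 2 := by nlinarith
  have hx3 : 8 * x ^ 2 ≤ x ^ 3 := by nlinarith
  have hx1 : 8 * x ≤ x ^ 2 := by nlinarith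
  have hf : (503 / 512) * x ^ 3 ≤ y ^ 2 := by
    rw [h]
    nlinarith
  have hx30 : 0 < x ^ 3 := by positivity
  have hy2 : 0 < y ^ 2 := by linarith
  have hy : y ≠ 0 := by
    rintro rfl
    simp at hy2
  obtain ⟨m, hm⟩ : ∃ m : ℚ, 2 * y * m = 3 * x ^ 2 + A := ⟨(3 * x ^ 2 + A) / (2 * y), by field_simp⟩
  refine ⟨m ^ 2 - 2 * x, m * (x - (m ^ 2 - 2 * x)) - y, ?_, ?_⟩
  · linear_combination h + (m ^ 2 - 3 * x) * hm
  · have h2 : 4 * y ^ 2 * m ^ 2 = (3 * x ^ 2 + A) ^ 2 := by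
      rw [← hm]
      ring
    have h3 : (3 * x ^ 2 + A) ^ 2 ≤ ((193 / 64) * x ^ 2) ^ 2 := by
      apply pow_le_pow_left₀
      · nlinarith
      · nlinarith
    have h4 : 4 * y ^ 2 * m ^ 2 ≤ 4 * y ^ 2 * (5 / 2 * x) := by
      have h5 : 4 * y ^ 2 * (5 / 2 * x) = 10 * x * y ^ 2 := by ring
      rw [h2, h5]
      have h6 : 10 * x * ((503 / 512) * x ^ 3) ≤ 10 * x * y ^ 2 :=
        mul_le_mul_of_nonneg_left hf (by linarith)
      have h7 : ((193 / 64) * x ^ 2) ^ 2 ≤ 10 * x * ((503 / 512) * x ^ 3) := by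
        have : 0 ≤ x ^ 4 := by positivity
        nlinarith
      linarith
    have h8 : m ^ 2 ≤ 5 / 2 * x := le_of_mul_le_mul_left h4 (by positivity)
    linarith

theorem desc (a b : ℤ) (h : Sol3 a b) : ∃ x y : ℚ, y ^ 2 = x ^ 3 + a * x + b ∧ x ≤ R a b := by
  have hR : ((R a b : ℕ) : ℚ) = 8 * (1 + |(a : ℚ)| + |(b : ℚ)|) := by
    have h1 : ((a.natAbs : ℕ) : ℚ) = |(a : ℚ)| := by
      rw [Nat.cast_natAbs, Int.cast_abs]
    have h2 : ((b.natAbs : ℕ) : ℚ) = |(b : ℚ)| := by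
      rw [Nat.cast_natAbs, Int.cast_abs]
    unfold R
    push_cast
    rw [h1, h2]
  have hRpos : (0 : ℚ) < ((R a b : ℕ) : ℚ) := by
    rw [hR]
    positivity
  have key : ∀ n : ℕ, ∀ x y : ℚ, y ^ 2 = x ^ 3 + a * x + b → x ≤ 2 ^ n * (R a b : ℚ) →
      ∃ x y : ℚ, y ^ 2 = x ^ 3 + a * x + b ∧ x ≤ R a b := by
    intro n
    induction n with
    | zero =>
      intro x y hxy hx
      exact ⟨x, y, hxy, by simpa using hx⟩
    | succ n ih =>
      intro x y hxy hx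
      rcases le_or_gt x (R a b : ℚ) with h1 | h1
      · exact ⟨x, y, hxy, h1⟩
      · obtain ⟨x', y', h2, h3⟩ := desc_step hR h1 hxy
        refine ih x' y' h2 ?_
        rw [pow_succ] at hx
        linarith
  obtain ⟨x, y, hxy⟩ := h
  obtain ⟨n, hn⟩ := pow_unbounded_of_one_lt (x / (R a b : ℚ)) (by norm_num : (1 : ℚ) < 2)
  exact key n x y hxy ((div_lt_iff₀ hRpos).1 hn).le

end Pool.Agent.Work.MP_9d4f6b_lc.E
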