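import Pool.Agent.Work.MP_9d4f6b_lc.E.Tri

/-!
MODULE DEV (M). Deviations. L1 = q (q+1) F2 > 0, L2 = q q F1 > 0. For IsPr z, x = px z, y = py z:
∑ k, z k * AA i j k is the expression AA with vx, vy replaced by x, y (AA is affine in (vx k, vy k), ∑ z = 1);
divided by L1 it deviates from δ_ij by at most 1/8: entries (x - y)/q; ((q+1) x - q (y+x))/F2; q (y+x)/F2;
- x/(q+1) on the diagonal (2,2). Bounds: R >= 8, |x| <= 3R, |y| <= H = 4 R^2, q = 64 R^2, F1, F2 >= q^3/2 (since
|a|, |b| <= R <= q): |x - y|/q <= (3R + 4R^2)/(64 R^2) <= 1/14; the others are tiny: (q+1)*3R + q (4R^2+3R) <= q^2/8 … <= F2/16.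
The same for CC: y/q, q y/F1, x/q. (Numerically the maximum is 0.0645.)
-/

set_option linter.unusedVariables false
set_option linter.style.longLine false

namespace Pool.Agent.Work.MP_9d4f6b_lc.E

section

variable (a b : ℤ) (z : Fin 3 → ℚ)

private theorem R_facts : (8 : ℤ) ≤ R a b ∧ |a| ≤ R a b ∧ |b| ≤ R a b ∧ (q a b : ℤ) = 64 * (R a b : ℤ) ^ 2 := by
  have h1 := abs_nonneg a
  have h2 := abs_nonneg b
  have h3 : (R a b : ℤ) = 8 * (1 + |a| + |b|) := by
    unfold R
    push_cast
    rw [Int.abs_eq_natAbs, Int.abs_eq_natAbs]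
  refine ⟨by omega, by omega, by omega, ?_⟩
  unfold q
  push_cast
  rfl

theorem q_big : 4096 ≤ q a b := by
  obtain ⟨h1, -, -, h4⟩ := R_facts a b
  have h5 : (4096 : ℤ) ≤ q a b := by nlinarith
  exact_mod_cast h5

private theorem R_le_q : (R a b : ℤ) ≤ q a b := by
  obtain ⟨h1, -, -, h4⟩ := R_facts a b
  nlinarith

private theorem cube_aux {x a b : ℤ} (hx : 4096 ≤ x) (ha : |a| ≤ x) (hb : |b| ≤ x) :
    x ^ 3 ≤ 2 * (x ^ 3 + a * x + b) := by
  have h1 := (abs_le.1 ha).1
  have h2 := (abs_le.1 hb).1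
  have h3 : -x * x ≤ a * x := mul_le_mul_of_nonneg_right h1 (by linarith)
  have h4 : 4096 * x ^ 2 ≤ x ^ 3 := by
    have : 0 ≤ (x - 4096) * x ^ 2 := mul_nonneg (by linarith) (sq_nonneg x)
    linarith
  nlinarith [sq_nonneg x]

theorem F1_big : (q a b : ℤ) ^ 3 ≤ 2 * F1 a b := by
  obtain ⟨h1, h2, h3, h4⟩ := R_facts a b
  have h5 := R_le_q a b
  have h6 : (4096 : ℤ) ≤ q a b := by exact_mod_cast q_big a b
  exact cube_aux h6 (h2.trans h5) (h3.trans h5)

theorem F2_big : ((q a b : ℤ) + 1) ^ 3 ≤ 2 * F2 a b := by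
  obtain ⟨h1, h2, h3, h4⟩ := R_facts a b
  have h5 := R_le_q a b
  have h6 : (4096 : ℤ) ≤ q a b := by exact_mod_cast q_big a b
  exact cube_aux (by linarith) (h2.trans (by linarith)) (h3.trans (by linarith))

/-- the averaged matrices in terms of x and y -/
theorem avA (hz : H.IsPr z) (i j : ℕ) : ∑ k : Fin 3, z k * (AA a b i j k : ℚ) =
    if i = 0 then (if j = 0 then (q a b : ℚ) * (q a b + 1) * F2 a b else 0)
    else if i = 1 then
      (if j = 0 then (px a b z - py a b z) * (q a b + 1) * F2 a b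
        else if j = 1 then (q a b : ℚ) * (q a b + 1) * F2 a b else 0)
    else
      (if j = 0 then (q a b : ℚ) * (q a b + 1) * ((q a b + 1) * px a b z - q a b * (py a b z + px a b z))
        else if j = 1 then (q a b : ℚ) * (q a b + 1) * q a b * (py a b z + px a b z)
        else (q a b : ℚ) * F2 a b * ((q a b + 1) - px a b z)) := by
  have hs := hz.2
  rw [Fin.sum_univ_three] at hs
  unfold px py
  simp only [Fin.sum_univ_three, AA]
  split_ifs
  · push_cast
    linear_combination ((q a b : ℚ) * (q a b + 1) * F2 a b) * hs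
  · push_cast
    ring
  · push_cast
    ring
  · push_cast
    linear_combination ((q a b : ℚ) * (q a b + 1) * F2 a b) * hs
  · push_cast
    ring
  · push_cast
    ring
  · push_cast
    ring
  · push_cast
    linear_combination ((q a b : ℚ) * F2 a b * (q a b + 1)) * hs

theorem avC (hz : H.IsPr z) (i j : ℕ) : ∑ k : Fin 3, z k * (CC a b i j k : ℚ) =
    if j = 0 then (if i = 0 then -((q a b : ℚ) * q a b * F1 a b) else 0)
    else if j = 1 then
      (if i = 0 then py a b z * q a b * F1 a b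
        else if i = 1 then -((q a b : ℚ) * q a b * F1 a b) else 0)
    else
      (if i = 0 then (q a b : ℚ) * q a b * q a b * py a b z
        else if i = 1 then -((q a b : ℚ) * q a b * q a b * py a b z)
        else -((q a b : ℚ) * F1 a b * (q a b - px a b z))) := by
  have hs := hz.2
  rw [Fin.sum_univ_three] at hs
  unfold px py
  simp only [Fin.sum_univ_three, CC]
  split_ifs
  · push_cast
    linear_combination (-((q a b : ℚ) * q a b * F1 a b)) * hs
  · push_cast
    ring
  · push_cast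
    ring
  · push_cast
    linear_combination (-((q a b : ℚ) * q a b * F1 a b)) * hs
  · push_cast
    ring
  · push_cast
    ring
  · push_cast
    ring
  · push_cast
    linear_combination (-((q a b : ℚ) * F1 a b * q a b)) * hs

private theorem abs_div_aux {x d : ℚ} (hd : 0 < d) (h : |x| * 8 ≤ d) : |x / d| ≤ 1 / 8 := by
  rw [abs_div, abs_of_pos hd, div_le_iff₀ hd]
  linarith

private theorem rat_facts (hz : H.IsPr z) : (8 : ℚ) ≤ R a b ∧ (q a b : ℚ) = 64 * (R a b : ℚ) ^ 2 ∧
    |px a b z| ≤ 3 * R a b ∧ |py a b z| ≤ 4 * (R a b : ℚ) ^ 2 ∧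
    ((q a b : ℚ) + 1) ^ 3 ≤ 2 * F2 a b ∧ (q a b : ℚ) ^ 3 ≤ 2 * F1 a b := by
  obtain ⟨h1, -, -, h4⟩ := R_facts a b
  obtain ⟨b1, b2, b3⟩ := box a b z hz
  have r8 : (8 : ℚ) ≤ R a b := by exact_mod_cast h1
  refine ⟨r8, by exact_mod_cast h4, ?_, ?_, by exact_mod_cast F2_big a b,
    by exact_mod_cast F1_big a b⟩
  · rw [abs_le]
    exact ⟨by linarith, b2⟩
  · refine b3.trans (le_of_eq ?_)
    unfold H
    push_cast
    rfl

private theorem devA_aux (hz : H.IsPr z) (i j : ℕ) (hi : i < 3) (hj : j < 3) :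
    |(∑ k : Fin 3, z k * (AA a b i j k : ℚ)) / ((q a b : ℚ) * (q a b + 1) * F2 a b) -
      (if i = j then 1 else 0)| ≤ 1 / 8 := by
  obtain ⟨r8, hq, hx, hy, hF2, -⟩ := rat_facts a b z hz
  rw [avA a b z hz]
  generalize (F2 a b : ℚ) = f at *
  generalize px a b z = x at *
  generalize py a b z = y at *
  generalize (q a b : ℚ) = Q at *
  generalize (R a b : ℚ) = r at *
  have hx1 := (abs_le.1 hx).1
  have hx2 := (abs_le.1 hx).2
  have hy1 := (abs_le.1 hy).1
  have hy2 := (abs_le.1 hy).2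
  have hQ1 : 4096 ≤ Q := by nlinarith
  have hQp : 0 < Q := by linarith
  have hQ1p : 0 < Q + 1 := by linarith
  have hf1 : 2 * Q ^ 2 ≤ f := by nlinarith [sq_nonneg Q, mul_nonneg (sub_nonneg.2 hQ1) (sq_nonneg Q)]
  have hfp : 0 < f := by nlinarith
  have hr8 : 8 * r ≤ r ^ 2 := by nlinarith
  have hne : Q * (Q + 1) * f ≠ 0 := by positivity
  have hzero : |(0 : ℚ)| ≤ 1 / 8 := by norm_num
  interval_cases i <;> interval_cases j <;> simp only [if_true, if_false, one_ne_zero,
    OfNat.ofNat_ne_zero, OfNat.ofNat_ne_one, OfNat.zero_ne_ofNat, OfNat.one_ne_ofNat, zero_ne_one]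
  · rw [div_self hne, sub_self]
    exact hzero
  · rw [zero_div, sub_self]
    exact hzero
  · rw [zero_div, sub_self]
    exact hzero
  · have e : (x - y) * (Q + 1) * f / (Q * (Q + 1) * f) - 0 = (x - y) / Q := by
      field_simp
      ring
    rw [e]
    refine abs_div_aux hQp ?_
    have : |x - y| ≤ 3 * r + 4 * r ^ 2 := (abs_sub _ _).trans (add_le_add hx hy)
    nlinarith
  · rw [div_self hne, sub_self]
    exact hzero
  · rw [zero_div, sub_self]
    exact hzero
  · have e : Q * (Q + 1) * ((Q + 1) * x - Q * (y + x)) / (Q * (Q + 1) * f) - 0 = (x - Q * y) / f := by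
      field_simp
      ring
    rw [e]
    refine abs_div_aux hfp ?_
    have : |x - Q * y| ≤ 3 * r + Q * (4 * r ^ 2) := by
      refine (abs_sub _ _).trans (add_le_add hx ?_)
      rw [abs_mul, abs_of_pos hQp]
      exact mul_le_mul_of_nonneg_left hy hQp.le
    nlinarith
  · have e : Q * (Q + 1) * Q * (y + x) / (Q * (Q + 1) * f) - 0 = Q * (y + x) / f := by
      field_simp
      ring
    rw [e]
    refine abs_div_aux hfp ?_
    have : |Q * (y + x)| ≤ Q * (4 * r ^ 2 + 3 * r) := by
      rw [abs_mul, abs_of_pos hQp]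
      exact mul_le_mul_of_nonneg_left ((abs_add_le _ _).trans (add_le_add hy hx)) hQp.le
    nlinarith
  · have e : Q * f * (Q + 1 - x) / (Q * (Q + 1) * f) - 1 = -x / (Q + 1) := by
      field_simp
      ring
    rw [e]
    refine abs_div_aux hQ1p ?_
    rw [abs_neg]
    nlinarith

theorem devA (hz : H.IsPr z) (i j : Fin 3) :
    |(∑ k : Fin 3, z k * (AA a b i j k : ℚ)) / ((q a b : ℚ) * (q a b + 1) * F2 a b) -
      (if i = j then 1 else 0)| ≤ 1 / 8 := by
  have h := devA_aux a b z hz i j i.isLt j.isLt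
  simpa only [Fin.ext_iff] using h

private theorem devC_aux (hz : H.IsPr z) (i j : ℕ) (hi : i < 3) (hj : j < 3) :
    |(∑ k : Fin 3, z k * (CC a b i j k : ℚ)) / ((q a b : ℚ) * q a b * F1 a b) +
      (if i = j then 1 else 0)| ≤ 1 / 8 := by
  obtain ⟨r8, hq, hx, hy, -, hF1⟩ := rat_facts a b z hz
  rw [avC a b z hz]
  generalize (F1 a b : ℚ) = f at *
  generalize px a b z = x at *
  generalize py a b z = y at *
  generalize (q a b : ℚ) = Q at *
  generalize (R a b : ℚ) = r at *
  have hx1 := (abs_le.1 hx).1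
  have hx2 := (abs_le.1 hx).2
  have hy1 := (abs_le.1 hy).1
  have hy2 := (abs_le.1 hy).2
  have hQ1 : 4096 ≤ Q := by nlinarith
  have hQp : 0 < Q := by linarith
  have hf1 : 2 * Q ^ 2 ≤ f := by nlinarith [sq_nonneg Q, mul_nonneg (sub_nonneg.2 hQ1) (sq_nonneg Q)]
  have hfp : 0 < f := by nlinarith
  have hr8 : 8 * r ≤ r ^ 2 := by nlinarith
  have hne : Q * Q * f ≠ 0 := by positivity
  have hzero : |(0 : ℚ)| ≤ 1 / 8 := by norm_num
  have hQy : |Q * y| ≤ Q * (4 * r ^ 2) := by
    rw [abs_mul, abs_of_pos hQp]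
    exact mul_le_mul_of_nonneg_left hy hQp.le
  interval_cases i <;> interval_cases j <;> simp only [if_true, if_false, one_ne_zero,
    OfNat.ofNat_ne_zero, OfNat.ofNat_ne_one, OfNat.zero_ne_ofNat, OfNat.one_ne_ofNat, zero_ne_one]
  · rw [neg_div, div_self hne, neg_add_cancel]
    exact hzero
  · have e : y * Q * f / (Q * Q * f) + 0 = y / Q := by
      field_simp
      ring
    rw [e]
    refine abs_div_aux hQp ?_
    nlinarith
  · have e : Q * Q * Q * y / (Q * Q * f) + 0 = Q * y / f := by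
      field_simp
      ring
    rw [e]
    refine abs_div_aux hfp ?_
    nlinarith
  · rw [zero_div, add_zero]
    exact hzero
  · rw [neg_div, div_self hne, neg_add_cancel]
    exact hzero
  · have e : -(Q * Q * Q * y) / (Q * Q * f) + 0 = -(Q * y) / f := by
      field_simp
      ring
    rw [e]
    refine abs_div_aux hfp ?_
    rw [abs_neg]
    nlinarith
  · rw [zero_div, add_zero]
    exact hzero
  · rw [zero_div, add_zero]
    exact hzero
  · have e : -(Q * f * (Q - x)) / (Q * Q * f) + 1 = x / Q := by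
      field_simp
      ring
    rw [e]
    refine abs_div_aux hQp ?_
    nlinarith

theorem devC (hz : H.IsPr z) (i j : Fin 3) :
    |(∑ k : Fin 3, z k * (CC a b i j k : ℚ)) / ((q a b : ℚ) * q a b * F1 a b) +
      (if i = j then 1 else 0)| ≤ 1 / 8 := by
  have h := devC_aux a b z hz i j i.isLt j.isLt
  simpa only [Fin.ext_iff] using h

end

end Pool.Agent.Work.MP_9d4f6b_lc.E
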