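import Pool.Agent.Work.MP_9d4f6b_lc.E.Rob
import Pool.Agent.Work.MP_9d4f6b_lc.E.Dev

/-!
MODULE MIX (S-M). In a BR all t i > 0 and all v j > 0: apply rob with A i j = (∑ k, z k AA i j k) / L1 and
C i j = (∑ k, z k CC i j k) / L2 (devA, devC); the best response conditions b1, b2 divided by L1, L2 > 0
(exchange the sums: ∑ j ∑ k v j z k AA = ∑ j v j (∑ k z k AA)).
-/

set_option linter.unusedVariables false
set_option linter.style.longLine false

namespace Pool.Agent.Work.MP_9d4f6b_lc.E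

private theorem sum_aux (v z : Fin 3 → ℚ) (X : Fin 3 → Fin 3 → ℚ) (L : ℚ) :
    ∑ j : Fin 3, v j * ((∑ k : Fin 3, z k * X j k) / L) =
      (∑ j : Fin 3, ∑ k : Fin 3, v j * z k * X j k) / L := by
  rw [Finset.sum_div]
  refine Finset.sum_congr rfl fun j _ => ?_
  rw [← mul_div_assoc, Finset.mul_sum]
  congr 1
  exact Finset.sum_congr rfl fun k _ => (mul_assoc _ _ _).symm

theorem mix {a b : ℤ} {t v z : Fin 3 → ℚ} (h : BR a b t v z) : (∀ i, 0 < t i) ∧ ∀ j, 0 < v j := by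
  have hq : (4096 : ℚ) ≤ q a b := by exact_mod_cast q_big a b
  have hF1 : (q a b : ℚ) ^ 3 ≤ 2 * F1 a b := by exact_mod_cast F1_big a b
  have hF2 : ((q a b : ℚ) + 1) ^ 3 ≤ 2 * F2 a b := by exact_mod_cast F2_big a b
  have hq0 : (0 : ℚ) < q a b := by linarith
  have hf1 : (0 : ℚ) < F1 a b := by
    have : (0 : ℚ) < (q a b : ℚ) ^ 3 := by positivity
    linarith
  have hf2 : (0 : ℚ) < F2 a b := by
    have : (0 : ℚ) < ((q a b : ℚ) + 1) ^ 3 := by positivity
    linarith
  refine rob (fun i j => (∑ k : Fin 3, z k * (AA a b i j k : ℚ)) /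
      ((q a b : ℚ) * (q a b + 1) * F2 a b))
    (fun i j => (∑ k : Fin 3, z k * (CC a b i j k : ℚ)) / ((q a b : ℚ) * q a b * F1 a b))
    (devA a b z h.pz) (devC a b z h.pz) t v h.pt h.pv (fun i hi i' => ?_) (fun j hj j' => ?_)
  · rw [sum_aux v z (fun j k => (AA a b i' j k : ℚ)), sum_aux v z (fun j k => (AA a b i j k : ℚ))]
    exact div_le_div_of_nonneg_right (h.b1 i hi i') (by positivity)
  · rw [sum_aux t z (fun i k => (CC a b i j' k : ℚ)), sum_aux t z (fun i k => (CC a b i j k : ℚ))]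
    exact div_le_div_of_nonneg_right (h.b2 j hj j') (by positivity)

end Pool.Agent.Work.MP_9d4f6b_lc.E
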