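import Pool.Agent.Work.MP_9d4f6b_lc.E.Dev

/-!
MODULE POS (M). The shifted payoffs are at least 1, so the toNat casts are exact (k < 3 may be replaced by any k).
|AA| <= (9/8) L1 <= S1 - 1 etc.: bound each entry directly for arbitrary k (vx k is -R or 3R, vy k is -H, 0 or H), or use
devA/devC for the unit vector z = δ_k when k < 3; the statement is only needed for i, j, k < 3.
-/

set_option linter.unusedVariables false
set_option linter.style.longLine false

namespace Pool.Agent.Work.MP_9d4f6b_lc.E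

section

variable (a b : ℤ)

private theorem R_ge : (8 : ℤ) ≤ (R a b : ℤ) := by
  unfold R
  omega

private theorem q_R : (q a b : ℤ) = 64 * (R a b : ℤ) ^ 2 := by
  unfold q
  push_cast
  ring

private theorem H_R : (H a b : ℤ) = 4 * (R a b : ℤ) ^ 2 := by
  unfold H
  push_cast
  ring

private theorem vx_bd (k : ℕ) : - (R a b : ℤ) ≤ vx a b k ∧ vx a b k ≤ 3 * R a b := by
  have h := R_ge a b
  unfold vx
  split_ifs <;> constructor <;> linarith

private theorem vy_bd (k : ℕ) : - (H a b : ℤ) ≤ vy a b k ∧ vy a b k ≤ H a b := by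
  have h : (0 : ℤ) ≤ H a b := by positivity
  unfold vy
  split_ifs <;> constructor <;> linarith

/-- the inequalities used below, for abstract integers -/
private theorem ineqs {r Q h F G x y : ℤ} (hr : 8 ≤ r) (hQ : Q = 64 * r ^ 2) (hh : h = 4 * r ^ 2)
    (hF : Q ^ 3 ≤ 2 * F) (hG : (Q + 1) ^ 3 ≤ 2 * G) (hx : -r ≤ x) (hx' : x ≤ 3 * r) (hy : -h ≤ y)
    (hy' : y ≤ h) : 0 < Q ∧ 0 < F ∧ 0 < G ∧ -Q ≤ x - y ∧ -Q ≤ y ∧ y ≤ Q ∧ 3 * r ≤ Q ∧ x ≤ Q ∧
      -G ≤ (Q + 1) * x - Q * (y + x) ∧ -G ≤ Q * (y + x) ∧ -F ≤ Q * y ∧ Q * y ≤ F ∧ r < Q := by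
  have h1 : 8 * r ≤ r ^ 2 := by nlinarith
  have hQh : Q = 16 * h := by rw [hQ, hh]; ring
  have h2 : r ≤ h := by nlinarith
  have hQ0 : 4096 ≤ Q := by nlinarith
  have hQ2 : 4096 * Q ^ 2 ≤ Q ^ 3 := by nlinarith [sq_nonneg Q]
  have hG' : Q ^ 3 ≤ 2 * G := by nlinarith [sq_nonneg Q]
  have hQQ : 0 < Q ^ 2 := by positivity
  have e1 : Q * y ≤ Q * h := mul_le_mul_of_nonneg_left hy' (by linarith)
  have e2 : Q * (-h) ≤ Q * y := mul_le_mul_of_nonneg_left hy (by linarith)
  have e3 : Q * (-r) ≤ Q * x := mul_le_mul_of_nonneg_left hx (by linarith)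
  have e4 : 16 * (Q * h) = Q ^ 2 := by rw [hQh]; ring
  have e5 : Q * r ≤ Q * h := mul_le_mul_of_nonneg_left h2 (by linarith)
  have e6 : Q ≤ Q ^ 2 := by nlinarith
  refine ⟨by linarith, by linarith, by linarith, by linarith, by linarith, by linarith,
    by linarith, by linarith, ?_, ?_, ?_, ?_, by linarith⟩
  · have e7 : (Q + 1) * x - Q * (y + x) = x - Q * y := by ring
    rw [e7]
    linarith
  · have e7 : Q * (y + x) = Q * y + Q * x := by ring
    rw [e7]
    linarith
  · linarith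
  · linarith

theorem pos1 (i j k : ℕ) (hi : i < 3) (hj : j < 3) (hk : k < 3) : 1 ≤ AA a b i j k + S1 a b := by
  obtain ⟨g1, g2, g3, g4, g5, g6, g7, g8, g9, g10, g11, g12, g13⟩ := ineqs (R_ge a b) (q_R a b)
    (H_R a b) (F1_big a b) (F2_big a b) (vx_bd a b k).1 (vx_bd a b k).2 (vy_bd a b k).1
    (vy_bd a b k).2
  have hL : 0 < (q a b : ℤ) * (q a b + 1) * F2 a b := by positivity
  have key : -((q a b : ℤ) * (q a b + 1) * F2 a b) ≤ AA a b i j k := by
    unfold AA
    split_ifs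
    · linarith
    · linarith
    · have e := mul_le_mul_of_nonneg_right g4 (show 0 ≤ ((q a b : ℤ) + 1) * F2 a b by positivity)
      linarith
    · linarith
    · linarith
    · have e := mul_le_mul_of_nonneg_left g9 (show 0 ≤ (q a b : ℤ) * (q a b + 1) by positivity)
      linarith
    · have e := mul_le_mul_of_nonneg_left g10 (show 0 ≤ (q a b : ℤ) * (q a b + 1) by positivity)
      linarith
    · have e : 0 ≤ (q a b : ℤ) * F2 a b * ((q a b + 1) - vx a b k) :=
        mul_nonneg (by positivity) (by linarith)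
      linarith
  unfold S1
  linarith

theorem pos2 (i j k : ℕ) (hi : i < 3) (hj : j < 3) (hk : k < 3) : 1 ≤ CC a b i j k + S2 a b := by
  obtain ⟨g1, g2, g3, g4, g5, g6, g7, g8, g9, g10, g11, g12, g13⟩ := ineqs (R_ge a b) (q_R a b)
    (H_R a b) (F1_big a b) (F2_big a b) (vx_bd a b k).1 (vx_bd a b k).2 (vy_bd a b k).1
    (vy_bd a b k).2
  have hL : 0 < (q a b : ℤ) * q a b * F1 a b := by positivity
  have hqF : 0 < (q a b : ℤ) * F1 a b := by positivity
  have key : -((q a b : ℤ) * q a b * F1 a b) - (q a b : ℤ) * F1 a b * R a b ≤ CC a b i j k := by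
    have hn : 0 ≤ (q a b : ℤ) * F1 a b * R a b := by positivity
    unfold CC
    split_ifs
    · linarith
    · linarith
    · have e := mul_le_mul_of_nonneg_right g5 hqF.le
      linarith
    · linarith
    · linarith
    · have e := mul_le_mul_of_nonneg_left g11 (show 0 ≤ (q a b : ℤ) * q a b by positivity)
      linarith
    · have e := mul_le_mul_of_nonneg_left g12 (show 0 ≤ (q a b : ℤ) * q a b by positivity)
      linarith
    · have e := mul_le_mul_of_nonneg_left (vx_bd a b k).1 hqF.le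
      linarith
  have e2 : (q a b : ℤ) * F1 a b * (R a b + 1) ≤ (q a b : ℤ) * F1 a b * q a b :=
    mul_le_mul_of_nonneg_left (by linarith) hqF.le
  unfold S2
  linarith

theorem pos3 (i j k : ℕ) (hi : i < 3) (hj : j < 3) (hk : k < 3) : 1 ≤ ZZ a b i j k + S3 a b := by
  obtain ⟨g1, g2, g3, g4, g5, g6, g7, g8, g9, g10, g11, g12, g13⟩ := ineqs (R_ge a b) (q_R a b)
    (H_R a b) (F1_big a b) (F2_big a b) (vx_bd a b k).1 (vx_bd a b k).2 (vy_bd a b k).1
    (vy_bd a b k).2
  have h1 : 0 < F1 a b * (q a b + 1) := by positivity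
  have h2 : 0 < q a b * F2 a b := by positivity
  have h3 : 0 < (2 * (q a b : ℤ) + 1) * q a b * (q a b + 1) := by positivity
  unfold ZZ BB S3
  split_ifs <;> linarith

end

end Pool.Agent.Work.MP_9d4f6b_lc.E
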