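import Pool.Agent.Work.MP_9d4f6b_lc.H.PrimA

/-!
MODULE PRIMI (M). Integer arithmetic is primitive recursive (instance of Primcodable ℤ as in H.PrimA: prim_toNat,
prim_negToNat). Model (copy): Work/MP_90e0ad_ag/Hs/PrimI.lean (primrec_intSub, primrec_natCast, primrec_intMul,
primrec_intNeg). x + y = (x⁺ + y⁺) - (x⁻ + y⁻) with intSub : (m, n) ↦ (m : ℤ) - n.
-/

set_option linter.unusedVariables false
set_option linter.style.longLine false

namespace Pool.Agent.Work.MP_9d4f6b_lc.E

private theorem enc_int (z : ℤ) : Encodable.encode z = Equiv.intEquivNat z := rfl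

private theorem prim_intSub : Primrec fun x : ℕ × ℕ => (x.1 : ℤ) - (x.2 : ℤ) := by
  rw [← Primrec.encode_iff]
  have h1 : PrimrecPred fun x : ℕ × ℕ => x.2 ≤ x.1 := Primrec.nat_le.comp Primrec.snd Primrec.fst
  have h2 : Primrec fun x : ℕ × ℕ => 2 * (x.1 - x.2) :=
    Primrec.nat_mul.comp (Primrec.const 2) (Primrec.nat_sub.comp Primrec.fst Primrec.snd)
  have h3 : Primrec fun x : ℕ × ℕ => 2 * (x.2 - x.1) - 1 :=
    Primrec.nat_sub.comp (Primrec.nat_mul.comp (Primrec.const 2)
      (Primrec.nat_sub.comp Primrec.snd Primrec.fst)) (Primrec.const 1)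
  refine (Primrec.ite h1 h2 h3).of_eq fun x => ?_
  obtain ⟨a, b⟩ := x
  simp only
  rw [enc_int]
  split_ifs with h
  · have : (a : ℤ) - (b : ℤ) = Int.ofNat (a - b) := by
      rw [Int.ofNat_eq_natCast]
      omega
    rw [this]
    rfl
  · have : (a : ℤ) - (b : ℤ) = Int.negSucc (b - a - 1) := by
      rw [Int.negSucc_eq]
      omega
    rw [this]
    have h4 : Equiv.intEquivNat (Int.negSucc (b - a - 1)) = 2 * (b - a - 1) + 1 := rfl
    rw [h4]
    omega

section

variable {α : Type} [Primcodable α] {f g : α → ℤ}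

private theorem sub' {h k : α → ℕ} (hh : Primrec h) (hk : Primrec k) :
    Primrec (fun a => (h a : ℤ) - (k a : ℤ)) := prim_intSub.comp (hh.pair hk)

private theorem pos' (hf : Primrec f) : Primrec (fun a => (f a).toNat) := H.prim_toNat.comp hf

private theorem neg' (hf : Primrec f) : Primrec (fun a => (-(f a)).toNat) :=
  H.prim_negToNat.comp hf

theorem prim_natCast {h : α → ℕ} (hh : Primrec h) : Primrec (fun a => (h a : ℤ)) :=
  (sub' hh (Primrec.const 0)).of_eq fun a => by simp

theorem prim_add (hf : Primrec f) (hg : Primrec g) : Primrec (fun a => f a + g a) :=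
  (sub' (Primrec.nat_add.comp (pos' hf) (pos' hg))
    (Primrec.nat_add.comp (neg' hf) (neg' hg))).of_eq fun a => by
      have h1 := Int.toNat_sub_toNat_neg (f a)
      have h2 := Int.toNat_sub_toNat_neg (g a)
      push_cast
      omega

theorem prim_mul (hf : Primrec f) (hg : Primrec g) : Primrec (fun a => f a * g a) :=
  (sub' (Primrec.nat_add.comp (Primrec.nat_mul.comp (pos' hf) (pos' hg))
      (Primrec.nat_mul.comp (neg' hf) (neg' hg)))
    (Primrec.nat_add.comp (Primrec.nat_mul.comp (pos' hf) (neg' hg))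
      (Primrec.nat_mul.comp (neg' hf) (pos' hg)))).of_eq fun a => by
      have h1 := (Int.toNat_sub_toNat_neg (f a)).symm
      have h2 := (Int.toNat_sub_toNat_neg (g a)).symm
      conv_rhs => rw [h1, h2]
      push_cast
      ring

theorem prim_neg (hf : Primrec f) : Primrec (fun a => - f a) :=
  (prim_mul (Primrec.const (-1)) hf).of_eq fun a => by simp

theorem prim_sub (hf : Primrec f) (hg : Primrec g) : Primrec (fun a => f a - g a) :=
  (prim_add hf (prim_neg hg)).of_eq fun a => by rw [sub_eq_add_neg]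

theorem prim_natAbs (hf : Primrec f) : Primrec (fun a => (f a).natAbs) :=
  (Primrec.nat_add.comp (pos' hf) (neg' hf)).of_eq fun a => by omega

theorem prim_toNat' (hf : Primrec f) : Primrec (fun a => (f a).toNat) := pos' hf

end

end Pool.Agent.Work.MP_9d4f6b_lc.E
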