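import Pool.Agent.Work.MP_9d4f6b_lc.E.Defs
import Pool.Agent.Work.MP_9d4f6b_lc.E.PrimI

/-!
MODULE PRIME1 (M). The payoff functions are primitive recursive, in composed form: A, B : α → ℤ the coefficients, I, J, L : α → ℕ
the indices. Build q, F1, F2 (powers as products), vx, vy (Primrec.ite with Primrec.eq on ℕ), then AA, CC, BB, ZZ.
-/

set_option linter.unusedVariables false
set_option linter.style.longLine false

namespace Pool.Agent.Work.MP_9d4f6b_lc.E

section

variable {α : Type} [Primcodable α] {A B : α → ℤ} {I J L : α → ℕ}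

private theorem eqc (hI : Primrec I) (c : ℕ) : PrimrecPred (fun x => I x = c) :=
  Primrec.eq.comp hI (Primrec.const c)

private theorem pR (hA : Primrec A) (hB : Primrec B) : Primrec (fun x => R (A x) (B x)) :=
  Primrec.nat_mul.comp (Primrec.const 8) (Primrec.nat_add.comp
    (Primrec.nat_add.comp (Primrec.const 1) (prim_natAbs hA)) (prim_natAbs hB))

private theorem pR2 (hA : Primrec A) (hB : Primrec B) : Primrec (fun x => R (A x) (B x) ^ 2) :=
  (Primrec.nat_mul.comp (pR hA hB) (pR hA hB)).of_eq fun x => (pow_two _).symm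

private theorem pH (hA : Primrec A) (hB : Primrec B) :
    Primrec (fun x => ((H (A x) (B x) : ℕ) : ℤ)) :=
  prim_natCast (Primrec.nat_mul.comp (Primrec.const 4) (pR2 hA hB))

private theorem pq (hA : Primrec A) (hB : Primrec B) :
    Primrec (fun x => ((q (A x) (B x) : ℕ) : ℤ)) :=
  prim_natCast (Primrec.nat_mul.comp (Primrec.const 64) (pR2 hA hB))

private theorem pF1 (hA : Primrec A) (hB : Primrec B) : Primrec (fun x => F1 (A x) (B x)) :=
  (prim_add (prim_add (prim_mul (prim_mul (pq hA hB) (pq hA hB)) (pq hA hB))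
    (prim_mul hA (pq hA hB))) hB).of_eq fun x => by
      unfold F1
      ring

private theorem pF2 (hA : Primrec A) (hB : Primrec B) : Primrec (fun x => F2 (A x) (B x)) := by
  have h1 : Primrec (fun _ : α => (1 : ℤ)) := Primrec.const 1
  have hq1 := prim_add (pq hA hB) h1
  exact (prim_add (prim_add (prim_mul (prim_mul hq1 hq1) hq1) (prim_mul hA hq1)) hB).of_eq
    fun x => by
      unfold F2
      ring

private theorem pvx (hA : Primrec A) (hB : Primrec B) (hL : Primrec L) :
    Primrec (fun x => vx (A x) (B x) (L x)) := by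
  have h3 : Primrec (fun _ : α => (3 : ℤ)) := Primrec.const 3
  have hR := prim_natCast (pR hA hB)
  unfold vx
  exact Primrec.ite (eqc hL 1) (prim_mul h3 hR) (prim_neg hR)

private theorem pvy (hA : Primrec A) (hB : Primrec B) (hL : Primrec L) :
    Primrec (fun x => vy (A x) (B x) (L x)) := by
  have h0 : Primrec (fun _ : α => (0 : ℤ)) := Primrec.const 0
  unfold vy
  exact Primrec.ite (eqc hL 0) (prim_neg (pH hA hB)) (Primrec.ite (eqc hL 1) h0 (pH hA hB))

theorem prim_AA (hA : Primrec A) (hB : Primrec B) (hI : Primrec I) (hJ : Primrec J) (hL : Primrec L) :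
    Primrec (fun x => AA (A x) (B x) (I x) (J x) (L x)) := by
  have hq := pq hA hB
  have hF2 := pF2 hA hB
  have hvx := pvx hA hB hL
  have hvy := pvy hA hB hL
  have h1 : Primrec (fun _ : α => (1 : ℤ)) := Primrec.const 1
  have h0 : Primrec (fun _ : α => (0 : ℤ)) := Primrec.const 0
  have hq1 := prim_add hq h1
  unfold AA
  refine Primrec.ite (eqc hI 0) (Primrec.ite (eqc hJ 0) (prim_mul (prim_mul hq hq1) hF2) h0) ?_
  refine Primrec.ite (eqc hI 1) (Primrec.ite (eqc hJ 0)
    (prim_mul (prim_mul (prim_sub hvx hvy) hq1) hF2)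
    (Primrec.ite (eqc hJ 1) (prim_mul (prim_mul hq hq1) hF2) h0)) ?_
  refine Primrec.ite (eqc hJ 0) (prim_mul (prim_mul hq hq1)
    (prim_sub (prim_mul hq1 hvx) (prim_mul hq (prim_add hvy hvx)))) ?_
  exact Primrec.ite (eqc hJ 1) (prim_mul (prim_mul (prim_mul hq hq1) hq) (prim_add hvy hvx))
    (prim_mul (prim_mul hq hF2) (prim_sub hq1 hvx))

theorem prim_CC (hA : Primrec A) (hB : Primrec B) (hI : Primrec I) (hJ : Primrec J) (hL : Primrec L) :
    Primrec (fun x => CC (A x) (B x) (I x) (J x) (L x)) := by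
  have hq := pq hA hB
  have hF1 := pF1 hA hB
  have hvx := pvx hA hB hL
  have hvy := pvy hA hB hL
  have h0 : Primrec (fun _ : α => (0 : ℤ)) := Primrec.const 0
  unfold CC
  refine Primrec.ite (eqc hJ 0) (Primrec.ite (eqc hI 0)
    (prim_neg (prim_mul (prim_mul hq hq) hF1)) h0) ?_
  refine Primrec.ite (eqc hJ 1) (Primrec.ite (eqc hI 0) (prim_mul (prim_mul hvy hq) hF1)
    (Primrec.ite (eqc hI 1) (prim_neg (prim_mul (prim_mul hq hq) hF1)) h0)) ?_
  refine Primrec.ite (eqc hI 0) (prim_mul (prim_mul (prim_mul hq hq) hq) hvy) ?_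
  exact Primrec.ite (eqc hI 1) (prim_neg (prim_mul (prim_mul (prim_mul hq hq) hq) hvy))
    (prim_neg (prim_mul (prim_mul hq hF1) (prim_sub hq hvx)))

theorem prim_ZZ (hA : Primrec A) (hB : Primrec B) (hI : Primrec I) (hJ : Primrec J) (hL : Primrec L) :
    Primrec (fun x => ZZ (A x) (B x) (I x) (J x) (L x)) := by
  have hq := pq hA hB
  have hF1 := pF1 hA hB
  have hF2 := pF2 hA hB
  have h0 : Primrec (fun _ : α => (0 : ℤ)) := Primrec.const 0
  have h1 : Primrec (fun _ : α => (1 : ℤ)) := Primrec.const 1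
  have h2 : Primrec (fun _ : α => (2 : ℤ)) := Primrec.const 2
  have hq1 := prim_add hq h1
  have hBB : Primrec (fun x => BB (A x) (B x) (I x) (J x)) := by
    unfold BB
    refine Primrec.ite ((eqc hI 2).and (eqc hJ 0)) (prim_mul hF1 hq1) ?_
    refine Primrec.ite ((eqc hI 0).and (eqc hJ 2)) (prim_neg (prim_mul hq hF2)) ?_
    exact Primrec.ite ((eqc hI 0).and (eqc hJ 0))
      (prim_mul (prim_mul (prim_add (prim_mul h2 hq) h1) hq) hq1) h0
  unfold ZZ
  exact Primrec.ite (eqc hL 1) (prim_neg hBB) h0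

theorem prim_S1 (hA : Primrec A) (hB : Primrec B) : Primrec (fun x => S1 (A x) (B x)) := by
  have hq := pq hA hB
  have h1 : Primrec (fun _ : α => (1 : ℤ)) := Primrec.const 1
  have h2 : Primrec (fun _ : α => (2 : ℤ)) := Primrec.const 2
  exact prim_mul h2 (prim_mul (prim_mul hq (prim_add hq h1)) (pF2 hA hB))

theorem prim_S2 (hA : Primrec A) (hB : Primrec B) : Primrec (fun x => S2 (A x) (B x)) := by
  have hq := pq hA hB
  have h2 : Primrec (fun _ : α => (2 : ℤ)) := Primrec.const 2
  exact prim_mul h2 (prim_mul (prim_mul hq hq) (pF1 hA hB))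

theorem prim_S3 (hA : Primrec A) (hB : Primrec B) : Primrec (fun x => S3 (A x) (B x)) := by
  have hq := pq hA hB
  have h1 : Primrec (fun _ : α => (1 : ℤ)) := Primrec.const 1
  have h2 : Primrec (fun _ : α => (2 : ℤ)) := Primrec.const 2
  have hq1 := prim_add hq h1
  exact prim_add (prim_add (prim_add (prim_mul (pF1 hA hB) hq1) (prim_mul hq (pF2 hA hB)))
    (prim_mul (prim_mul (prim_add (prim_mul h2 hq) h1) hq) hq1)) h1

end

end Pool.Agent.Work.MP_9d4f6b_lc.E
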