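import Pool.Agent.Work.MP_9d4f6b_lc.E.Defs

/-!
MODULE ROB (M). Robust uniqueness: perturbed matching game. Let |A i j - δ_ij| <= 1/8 and |C i j + δ_ij| <= 1/8,
t, v probability vectors on Fin 3, mutual best responses. Then all t i > 0 and all v j > 0. PROOF. The payoff
of row i is within 1/8 of v i; of column j within 1/8 of - t j. Suppose t i = 0. The other two sum to 1, so
t j >= 1/2 for some j. Column j has payoff <= -1/2 + 1/8 = -3/8, column i has >= -1/8, so v j = 0 (else
column j would be a best response). Row j then has payoff <= 1/8; some v i' >= 1/3 and row i' has payoff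
>= 1/3 - 1/8 > 1/8, so t j = 0, contradiction. Suppose v j = 0. Row j has payoff <= 1/8 < 1/3 - 1/8 <= payoff of a row
i' with v i' >= 1/3, so t j = 0, contradiction to the first part.
-/

set_option linter.unusedVariables false
set_option linter.style.longLine false

namespace Pool.Agent.Work.MP_9d4f6b_lc.E

private theorem near {w : Fin 3 → ℚ} (hw : H.IsPr w) {f g : Fin 3 → ℚ}
    (h : ∀ j, |f j - g j| ≤ 1 / 8) : |∑ j, w j * f j - ∑ j, w j * g j| ≤ 1 / 8 := by
  have e : ∑ j, w j * f j - ∑ j, w j * g j = ∑ j, w j * (f j - g j) := by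
    rw [← Finset.sum_sub_distrib]
    exact Finset.sum_congr rfl fun j _ => by ring
  rw [e]
  calc |∑ j, w j * (f j - g j)| ≤ ∑ j, |w j * (f j - g j)| := Finset.abs_sum_le_sum_abs _ _
    _ ≤ ∑ j, w j * (1 / 8) := by
        refine Finset.sum_le_sum fun j _ => ?_
        rw [abs_mul, abs_of_nonneg (hw.1 j)]
        exact mul_le_mul_of_nonneg_left (h j) (hw.1 j)
    _ = 1 / 8 := by rw [← Finset.sum_mul, hw.2, one_mul]

private theorem sum_delta (w : Fin 3 → ℚ) (i : Fin 3) :
    ∑ j, w j * (if i = j then (1 : ℚ) else 0) = w i := by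
  rw [Finset.sum_eq_single i (fun b _ hb => by rw [if_neg hb.symm, mul_zero])
    (fun h => absurd (Finset.mem_univ i) h), if_pos rfl, mul_one]

private theorem exists_third {w : Fin 3 → ℚ} (hw : H.IsPr w) : ∃ i, 1 / 3 ≤ w i := by
  by_contra hc
  push Not at hc
  have h := hw.2
  rw [Fin.sum_univ_three] at h
  linarith [hc 0, hc 1, hc 2]

private theorem exists_half {w : Fin 3 → ℚ} (hw : H.IsPr w) {i : Fin 3} (hi : w i = 0) :
    ∃ j, 1 / 2 ≤ w j := by
  by_contra hc
  push Not at hc
  have h := hw.2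
  rw [Fin.sum_univ_three] at h
  fin_cases i
  · simp only [Fin.zero_eta] at hi
    linarith [hc 1, hc 2]
  · simp only [Fin.mk_one] at hi
    linarith [hc 0, hc 2]
  · simp only [Fin.reduceFinMk] at hi
    linarith [hc 0, hc 1]

theorem rob (A C : Fin 3 → Fin 3 → ℚ) (hA : ∀ i j, |A i j - (if i = j then 1 else 0)| ≤ 1 / 8)
    (hC : ∀ i j, |C i j + (if i = j then 1 else 0)| ≤ 1 / 8) (t v : Fin 3 → ℚ) (ht : H.IsPr t)
    (hv : H.IsPr v)
    (h1 : ∀ i, t i ≠ 0 → ∀ i', ∑ j, v j * A i' j ≤ ∑ j, v j * A i j)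
    (h2 : ∀ j, v j ≠ 0 → ∀ j', ∑ i, t i * C i j' ≤ ∑ i, t i * C i j) :
    (∀ i, 0 < t i) ∧ ∀ j, 0 < v j := by
  have hr : ∀ i, |∑ j, v j * A i j - v i| ≤ 1 / 8 := fun i => by
    have h := near hv (f := fun j => A i j) (g := fun j => if i = j then 1 else 0) (hA i)
    rwa [sum_delta] at h
  have hc : ∀ j, |∑ i, t i * C i j + t j| ≤ 1 / 8 := fun j => by
    have h := near ht (f := fun i => C i j) (g := fun i => -(if j = i then 1 else 0)) (fun i => by
      rw [sub_neg_eq_add]
      have := hC i j
      by_cases e : i = j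
      · rw [if_pos e] at this
        rw [if_pos e.symm]
        exact this
      · rw [if_neg e] at this
        rw [if_neg (Ne.symm e)]
        exact this)
    have e : ∑ i, t i * -(if j = i then (1 : ℚ) else 0) = - t j := by
      rw [← sum_delta t j, ← Finset.sum_neg_distrib]
      exact Finset.sum_congr rfl fun i _ => by ring
    rwa [e, sub_neg_eq_add] at h
  -- a column with v j = 0 has t j = 0
  have key : ∀ j, v j = 0 → t j = 0 := by
    intro j hj
    by_contra hne
    obtain ⟨i', hi'⟩ := exists_third hv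
    have h := h1 j hne i'
    have a1 := abs_le.1 (hr j)
    have a2 := abs_le.1 (hr i')
    rw [hj] at a1
    linarith [a1.2, a2.1]
  have ht0 : ∀ i, 0 < t i := by
    intro i
    by_contra hi
    have hi0 : t i = 0 := le_antisymm (not_lt.1 hi) (ht.1 i)
    obtain ⟨j, hj⟩ := exists_half ht hi0
    have hvj : v j = 0 := by
      by_contra hne
      have h := h2 j hne i
      have a1 := abs_le.1 (hc j)
      have a2 := abs_le.1 (hc i)
      rw [hi0] at a2
      linarith [a1.2, a2.1]
    rw [key j hvj] at hj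
    norm_num at hj
  refine ⟨ht0, fun j => ?_⟩
  refine lt_of_le_of_ne (hv.1 j) fun h => ?_
  exact (ht0 j).ne' (key j h.symm)

end Pool.Agent.Work.MP_9d4f6b_lc.E
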